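import Pool.Agent.W331.DT.TailV

set_option autoImplicit false

namespace Pool.Agent.W331.DT

open MeasureTheory Topology

namespace Transducer

variable {A : Type*} (S : Transducer A)

/-- state after reading a finite word -/
def runL (s : S.State) (l : List A) : S.State := l.foldl S.next s

/-- output on a finite word -/
def outL : S.State → List A → List A
  | _, [] => []
  | s, a :: l => S.out s a ++ outL (S.next s a) l

theorem runL_append (s : S.State) (l m : List A) :
    S.runL s (l ++ m) = S.runL (S.runL s l) m := by
  unfold runL
  rw [List.foldl_append]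

theorem outL_append (s : S.State) (l m : List A) :
    S.outL s (l ++ m) = S.outL s l ++ S.outL (S.runL s l) m := by
  induction l generalizing s with
  | nil => rfl
  | cons a l ih =>
    rw [List.cons_append]
    simp only [outL]
    rw [ih, List.append_assoc]
    rfl

theorem run_app (l : List A) (z : ℕ → A) :
    S.run (app l z) l.length = S.runL S.init l ∧
      S.written (app l z) l.length = S.outL S.init l := by
  induction l using List.reverseRecOn generalizing z with
  | nil => exact ⟨rfl, rfl⟩
  | append_singleton l a ih =>
    obtain ⟨h1, h2⟩ := ih (cons a z)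
    have e : app (l ++ [a]) z = app l (cons a z) := app_append _ _ _
    have hl : (l ++ [a]).length = l.length + 1 := by simp
    have ha : app l (cons a z) l.length = a := app_apply_add l (cons a z) 0
    rw [e, hl]
    constructor
    · change S.next (S.run (app l (cons a z)) l.length) (app l (cons a z) l.length) = _
      rw [h1, ha, runL_append]
      rfl
    · change S.written (app l (cons a z)) l.length ++
        S.out (S.run (app l (cons a z)) l.length) (app l (cons a z) l.length) = _
      rw [h1, h2, ha, outL_append]
      simp [outL]

theorem written_mono (w : ℕ → A) {m n : ℕ} (h : m ≤ n) :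
    (S.written w m).length ≤ (S.written w n).length := by
  induction n, h using Nat.le_induction with
  | base => exact le_rfl
  | succ n _ ih =>
    refine ih.trans ?_
    change (S.written w n).length ≤ (S.written w n ++ S.out (S.run w n) (w n)).length
    rw [List.length_append]
    omega

end Transducer

theorem Transducer.comp {A : Type*} {f g : (ℕ → A) → (ℕ → A)} {S T : Transducer A}
    (hf : S.Computes f) (hg : T.Computes g) :
    ∃ R : Transducer A, R.Computes (fun w => f (g w)) := by
  have := S.fin
  have := T.fin
  let R : Transducer A :=
    { State := S.State × T.State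
      fin := inferInstance
      init := (S.init, T.init)
      next := fun s a => (S.runL s.1 (T.out s.2 a), T.next s.2 a)
      out := fun s a => S.outL s.1 (T.out s.2 a) }
  have key : ∀ (w : ℕ → A) (n : ℕ), R.run w n = (S.runL S.init (T.written w n), T.run w n) ∧
      R.written w n = S.outL S.init (T.written w n) := by
    intro w n
    induction n with
    | zero => exact ⟨rfl, rfl⟩
    | succ n ih =>
      obtain ⟨h1, h2⟩ := ih
      constructor
      · change (S.runL (R.run w n).1 (T.out (R.run w n).2 (w n)), T.next (R.run w n).2 (w n)) = _
        rw [h1]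
        change _ = (S.runL S.init (T.written w n ++ T.out (T.run w n) (w n)), _)
        rw [Transducer.runL_append]
        rfl
      · change R.written w n ++ S.outL (R.run w n).1 (T.out (R.run w n).2 (w n)) = _
        rw [h1, h2]
        change _ = S.outL S.init (T.written w n ++ T.out (T.run w n) (w n))
        rw [Transducer.outL_append]
  have key2 : ∀ (w : ℕ → A) (n : ℕ), R.written w n = S.written (g w) (T.written w n).length := by
    intro w n
    obtain ⟨z, hz⟩ := (hg w).1 n
    rw [(key w n).2, hz, (S.run_app _ z).2]
  refine ⟨R, fun w => ⟨fun n => ?_, fun m => ?_⟩⟩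
  · rw [key2]
    exact (hf (g w)).1 _
  · obtain ⟨k, hk⟩ := (hf (g w)).2 m
    obtain ⟨n, hn⟩ := (hg w).2 k
    refine ⟨n, hk.trans ?_⟩
    rw [key2]
    exact S.written_mono (g w) hn

section family
variable {A σ : Type*} (o : σ → A → List A) (nx : σ → A → σ)

/-- states along a word -/
def rn (s : σ) (w : ℕ → A) : ℕ → σ
  | 0 => s
  | n + 1 => nx (rn s w n) (w n)

/-- output along a word -/
def wn (s : σ) (w : ℕ → A) : ℕ → List A
  | 0 => []
  | n + 1 => wn s w n ++ o (rn nx s w n) (w n)

end family

/-- A finite family of maps closed under derivatives consists of maps computed by transducers;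
`φ` is a potential which shows that the output is unbounded. -/
theorem rational_of_family {A σ : Type*} [Finite σ] (F : σ → (ℕ → A) → (ℕ → A))
    (o : σ → A → List A) (nx : σ → A → σ)
    (h : ∀ s a w, F s (cons a w) = app (o s a) (F (nx s a) w))
    (φ : σ → ℕ) (hφ : ∀ s a, φ s + 1 ≤ φ (nx s a) + (o s a).length) (s : σ) :
    ∃ T : Transducer A, T.Computes (F s) := by
  obtain ⟨k, ⟨e⟩⟩ := Finite.exists_equiv_fin σ
  let T : Transducer A :=
    { State := Fin k
      fin := inferInstance
      init := e s
      next := fun i a => e (nx (e.symm i) a)
      out := fun i a => o (e.symm i) a }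
  have key : ∀ (w : ℕ → A) (n : ℕ), T.run w n = e (rn nx s w n) ∧ T.written w n = wn o nx s w n := by
    intro w n
    induction n with
    | zero => exact ⟨rfl, rfl⟩
    | succ n ih =>
      obtain ⟨h1, h2⟩ := ih
      constructor
      · change e (nx (e.symm (T.run w n)) (w n)) = e (nx (rn nx s w n) (w n))
        rw [h1, e.symm_apply_apply]
      · change T.written w n ++ o (e.symm (T.run w n)) (w n) =
          wn o nx s w n ++ o (rn nx s w n) (w n)
        rw [h1, h2, e.symm_apply_apply]
  have inv : ∀ (w : ℕ → A) (n : ℕ), F s w = app (wn o nx s w n) (F (rn nx s w n) (sh n w)) := by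
    intro w n
    induction n with
    | zero => simp [wn, rn]
    | succ n ih =>
      have hw : sh n w = cons (w n) (sh (n + 1) w) := by
        have := cons_sh (sh n w)
        rw [sh_sh] at this
        rw [← this]
        rfl
      rw [ih]
      conv_lhs => rw [hw, h]
      change _ = app (wn o nx s w n ++ o (rn nx s w n) (w n)) _
      rw [app_append]
      rfl
  obtain ⟨B, hB⟩ := (Set.finite_range φ).bddAbove
  have pot : ∀ (w : ℕ → A) (n : ℕ), n ≤ (wn o nx s w n).length + φ (rn nx s w n) := by
    intro w n
    induction n with
    | zero => exact Nat.zero_le _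
    | succ n ih =>
      have := hφ (rn nx s w n) (w n)
      change n + 1 ≤ (wn o nx s w n ++ o (rn nx s w n) (w n)).length +
        φ (nx (rn nx s w n) (w n))
      rw [List.length_append]
      omega
  refine ⟨T, fun w => ⟨fun n => ?_, fun m => ?_⟩⟩
  · rw [(key w n).2]
    exact ⟨_, inv w n⟩
  · refine ⟨m + B, ?_⟩
    rw [(key w _).2]
    have h1 := pot w (m + B)
    have h2 : φ (rn nx s w (m + B)) ≤ B := hB ⟨_, rfl⟩
    omega

theorem rational_of_cover {A : Type*} {f : (ℕ → A) → (ℕ → A)} [Finite A]
    (hf : ∃ P : Set (List A), P.Finite ∧
      (∀ x : ℕ → A, ∃ u ∈ P, ∃ w : ℕ → A, x = app u w) ∧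
      ∀ u ∈ P, ∃ v : List A, ∀ w : ℕ → A, f (app u w) = app v w) :
    ∃ T : Transducer A, T.Computes f := by
  obtain ⟨P, hP, hcov, hv⟩ := hf
  rcases isEmpty_or_nonempty A with hA | hA
  · refine ⟨⟨PUnit, inferInstance, PUnit.unit, fun s _ => s, fun _ _ => []⟩, fun w => ?_⟩
    exact hA.elim (w 0)
  obtain ⟨M, hM⟩ := (hP.image List.length).bddAbove
  have hM' : ∀ u ∈ P, u.length ≤ M := fun u hu => hM ⟨u, hu, rfl⟩
  have hc : ∀ u : List A, ∃ c : List A, M ≤ u.length → ∀ w : ℕ → A, f (app u w) = app c w := by
    intro u
    by_cases hu : M ≤ u.length
    · obtain ⟨a₀⟩ := hA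
      obtain ⟨p, hp, w₀, hw₀⟩ := hcov (app u fun _ => a₀)
      obtain ⟨v, hv'⟩ := hv p hp
      have hpl := (hM' p hp).trans hu
      have e : u = p ++ u.drop p.length := by
        have h1 : u.take p.length = p := by
          refine List.ext_getElem ?_ fun i h1 h2 => ?_
          · rw [List.length_take]; omega
          · rw [List.getElem_take]
            have h3 := congrFun hw₀ i
            rw [app_apply_lt _ _ _ (lt_of_lt_of_le h2 hpl), app_apply_lt _ _ _ h2] at h3
            exact h3
        conv_lhs => rw [← List.take_append_drop p.length u, h1]
      refine ⟨v ++ u.drop p.length, fun _ w => ?_⟩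
      conv_lhs => rw [e, app_append, hv']
      rw [app_append]
    · exact ⟨[], fun h => absurd h hu⟩
  choose c hc using hc
  -- the states
  have hfin : Finite {l : List A // l.length ≤ M} :=
    (List.finite_length_le A M).to_subtype
  let σ := Option {l : List A // l.length ≤ M}
  let F : σ → (ℕ → A) → (ℕ → A) := fun s w => match s with
    | none => w
    | some u => f (app u.1 w)
  let o : σ → A → List A := fun s a => match s with
    | none => [a]
    | some u => if u.1.length < M then [] else c u.1 ++ [a]
  let nx : σ → A → σ := fun s a => match s with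
    | none => none
    | some u => if h : u.1.length < M then
        some ⟨u.1 ++ [a], by rw [List.length_append, List.length_singleton]; omega⟩ else none
  let φ : σ → ℕ := fun s => match s with
    | none => M
    | some u => u.1.length
  have h1 : ∀ s a w, F s (cons a w) = app (o s a) (F (nx s a) w) := by
    intro s a w
    match s with
    | none => rfl
    | some u =>
      by_cases hu : u.1.length < M
      · have e1 : o (some u) a = [] := if_pos hu
        have e2 : nx (some u) a =
          some ⟨u.1 ++ [a], by rw [List.length_append, List.length_singleton]; omega⟩ := dif_pos hu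
        rw [e1, e2]
        change f (app u.1 (cons a w)) = f (app (u.1 ++ [a]) w)
        rw [app_append]
        rfl
      · have e1 : o (some u) a = c u.1 ++ [a] := if_neg hu
        have e2 : nx (some u) a = none := dif_neg hu
        rw [e1, e2]
        change f (app u.1 (cons a w)) = app (c u.1 ++ [a]) w
        rw [hc u.1 (not_lt.1 hu), app_append]
        rfl
  have h2 : ∀ s a, φ s + 1 ≤ φ (nx s a) + (o s a).length := by
    intro s a
    match s with
    | none => exact le_rfl
    | some u =>
      by_cases hu : u.1.length < M
      · have e1 : o (some u) a = [] := if_pos hu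
        have e2 : nx (some u) a =
          some ⟨u.1 ++ [a], by rw [List.length_append, List.length_singleton]; omega⟩ := dif_pos hu
        rw [e1, e2]
        change u.1.length + 1 ≤ (u.1 ++ [a]).length + 0
        rw [List.length_append, List.length_singleton]
      · have e1 : o (some u) a = c u.1 ++ [a] := if_neg hu
        have e2 : nx (some u) a = none := dif_neg hu
        rw [e1, e2]
        change u.1.length + 1 ≤ M + (c u.1 ++ [a]).length
        rw [List.length_append, List.length_singleton]
        have := u.2
        omega
  obtain ⟨T, hT⟩ := rational_of_family F o nx h1 φ h2 (some ⟨[], Nat.zero_le _⟩)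
  exact ⟨T, hT⟩

end Pool.Agent.W331.DT
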