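import Pool.Agent.W331.DT.BPing
import Pool.Agent.W331.DT.BMeas
import Pool.Agent.W331.DT.BNormal
import Pool.Agent.W331.DT.RatPhi

set_option autoImplicit false

namespace Pool.Agent.W331.DT

open MeasureTheory Topology

/-- The bad subgroup for any group containing the tail maps and the maps `HN`. -/
theorem bad_B {ι A : Type*} [Finite ι] [Finite A] [DecidableEq ι]
    [TopologicalSpace ι] [DiscreteTopology ι]
    [TopologicalSpace A] [DiscreteTopology A] [Nontrivial A] (C : Code D3 A) (i0 : ι)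
    (G : Subgroup ((ι × (ℕ → A)) ≃ₜ (ι × (ℕ → A))))
    (hG : ∀ f : (ι × (ℕ → A)) ≃ₜ (ι × (ℕ → A)), TailRule f id → f ∈ G)
    (hN : ∀ (N : Matrix (Fin 3) (Fin 3) (ZMod 2)) (h : N * N = 0),
      C.HN (Nmap N) i0 d3_two (Nmap_sq h) ∈ G) :
    ∃ H : Subgroup ((ι × (ℕ → A)) ≃ₜ (ι × (ℕ → A))), H ≤ G ∧ Bad H := by
  let H : Subgroup ((ι × (ℕ → A)) ≃ₜ (ι × (ℕ → A))) :=
    { carrier := {g | g ∈ G ∧ Aff C i0 g}
      mul_mem' := fun {f g} hf hg => ⟨G.mul_mem hf.1 hg.1,
        (Aff.comp C i0 hf.2 hg.2 : Aff C i0 fun x => f (g x))⟩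
      one_mem' := ⟨G.one_mem, Aff.of_fix C i0 fun x _ => rfl⟩
      inv_mem' := fun {g} hg => ⟨G.inv_mem hg.1, Aff.inv C i0 hg.2⟩ }
  refine ⟨H, fun g hg => hg.1, ?_, no_pingpong_B C i0 H fun g hg => hg.2⟩
  intro μ hμ hinv
  let mX : MeasurableSpace (ι × (ℕ → A)) := borel _
  have bX : BorelSpace (ι × (ℕ → A)) := ⟨rfl⟩
  have : IsProbabilityMeasure μ := hμ
  refine no_measure_B C i0 μ (fun f hf hfix => ?_) (fun N hN' => ?_)
  · exact hinv f ⟨hG f hf, Aff.of_fix C i0 hfix⟩
  · exact hinv (C.HN (Nmap N) i0 d3_two (Nmap_sq (gen_sq hN')))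
      ⟨hN N (gen_sq hN'), aff_HN C i0 N hN'⟩

/-- The normalizer of the group of tail maps. -/
def normG (ι A : Type*) [TopologicalSpace ι] [TopologicalSpace A] :
    Subgroup ((ι × (ℕ → A)) ≃ₜ (ι × (ℕ → A))) where
  carrier := {h | ∀ f : (ι × (ℕ → A)) ≃ₜ (ι × (ℕ → A)),
    TailRule f id ↔ TailRule (h * f * h⁻¹) id}
  mul_mem' := by
    intro h k hh hk f
    rw [hk f, hh (k * f * k⁻¹)]
    simp only [mul_inv_rev, mul_assoc]
  one_mem' := by intro f; simp
  inv_mem' := by
    intro h hh f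
    rw [hh (h⁻¹ * f * h⁻¹⁻¹)]
    simp [mul_assoc]

theorem fails_aut (d k : ℕ) (hd : 2 ≤ d) (hk : 1 ≤ k) :
    ¬ SatisfiesDTA (autHigmanThompson d k) := by
  obtain ⟨e, rfl⟩ : ∃ e, d = e + 2 := ⟨d - 2, by omega⟩
  obtain ⟨l, rfl⟩ : ∃ l, k = l + 1 := ⟨k - 1, by omega⟩
  have h01 : (0 : Fin (e + 2)) ≠ 1 := by simp
  have key : ∀ f : (Fin (l + 1) × (ℕ → Fin (e + 2))) ≃ₜ (Fin (l + 1) × (ℕ → Fin (e + 2))),
      f ∈ higmanThompson (e + 2) (l + 1) ↔ TailRule f id := by
    intro f
    constructor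
    · rintro ⟨P, -, h1, h2⟩
      exact TailRule.of_cover ⟨P, h1, h2⟩
    · intro hf
      exact TailRule.cover f.continuous hf
  suffices hb : ∃ H : Subgroup ((Fin (l + 1) × (ℕ → Fin (e + 2))) ≃ₜ
      (Fin (l + 1) × (ℕ → Fin (e + 2)))), H ≤ normG (Fin (l + 1)) (Fin (e + 2)) ∧ Bad H by
    obtain ⟨H, hHG, hH⟩ := hb
    refine hH.not_satisfiesDTA fun g hg => ?_
    intro f
    rw [key, key]
    exact hHG hg f
  refine bad_B (code3 (0 : Fin (e + 2)) 1 h01) (0 : Fin (l + 1))
    (normG (Fin (l + 1)) (Fin (e + 2))) ?_ ?_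
  · intro h hh f
    have hinv : TailRule (h⁻¹ : (Fin (l + 1) × (ℕ → Fin (e + 2))) ≃ₜ _) id := TailRule.inv_id hh
    constructor
    · intro hf
      have := TailRule.comp_id (TailRule.comp_id hh hf f.continuous) hinv (h⁻¹).continuous
      exact this
    · intro hf
      have := TailRule.comp_id (TailRule.comp_id hinv hf (h * f * h⁻¹).continuous) hh h.continuous
      have h3 : (fun x => h⁻¹ ((h * f * h⁻¹) (h x))) = f := by
        funext x
        simp
      rw [h3] at this
      exact this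
  · intro N hN f
    set g := (code3 (0 : Fin (e + 2)) 1 h01).HN (Nmap N) (0 : Fin (l + 1)) d3_two (Nmap_sq hN)
      with hg
    have hginv : g⁻¹ = g := rfl
    have hgg : ∀ x, g (g x) = x := fun x => g.left_inv x
    have hgt : TailRule g ((code3 (0 : Fin (e + 2)) 1 h01).phi (Nmap N)) :=
      Code.tailRule_hfun _ _ _
    have hconj : ∀ f : (Fin (l + 1) × (ℕ → Fin (e + 2))) ≃ₜ (Fin (l + 1) × (ℕ → Fin (e + 2))),
        TailRule f id → TailRule (g * f * g⁻¹) id := by
      intro f hf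
      rw [hginv]
      exact Code.tailRule_conj _ (Nmap N) d3_two (Nmap_sq hN) g f g.continuous f.continuous hgt hf
    constructor
    · exact hconj f
    · intro hf
      have := hconj _ hf
      have h3 : g * (g * f * g⁻¹) * g⁻¹ = f := by
        ext x : 1
        simp [hginv, hgg]
      rw [h3] at this
      exact this

/-- Maps of `Unit × A^ℕ` given by transducers. -/
def RatU {A : Type*} (f : Unit × (ℕ → A) → Unit × (ℕ → A)) : Prop :=
  ∃ T : Transducer A, T.Computes (fun w => (f ((), w)).2)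

theorem RatU.comp {A : Type*} {f g : Unit × (ℕ → A) → Unit × (ℕ → A)} (hf : RatU f)
    (hg : RatU g) : RatU (fun x => f (g x)) := by
  obtain ⟨S, hS⟩ := hf
  obtain ⟨T, hT⟩ := hg
  exact Transducer.comp hS hT

/-- The group of maps given, together with their inverses, by transducers. -/
def ratG (A : Type*) [TopologicalSpace A] :
    Subgroup ((Unit × (ℕ → A)) ≃ₜ (Unit × (ℕ → A))) where
  carrier := {f | RatU f ∧ RatU f.symm}
  mul_mem' := fun {f g} hf hg => ⟨(RatU.comp hf.1 hg.1 : RatU fun x => f (g x)),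
    (RatU.comp hg.2 hf.2 : RatU fun x => g.symm (f.symm x))⟩
  one_mem' := by
    have : RatU (fun x : Unit × (ℕ → A) => x) := by
      refine ⟨⟨Unit, inferInstance, (), fun _ _ => (), fun _ a => [a]⟩, fun w => ⟨fun n => ?_,
        fun m => ?_⟩⟩
      · have h : ∀ n, Transducer.written ⟨Unit, inferInstance, (), fun _ _ => (), fun _ a => [a]⟩
            w n = pre n w := by
          intro n
          induction n with
          | zero => simp [Transducer.written, pre]
          | succ n ih =>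
            simp only [Transducer.written, ih, pre, List.ofFn_succ']
            simp [List.concat_eq_append]
        exact ⟨sh n w, by rw [h, app_pre]⟩
      · have h : ∀ n, Transducer.written ⟨Unit, inferInstance, (), fun _ _ => (), fun _ a => [a]⟩
            w n = pre n w := by
          intro n
          induction n with
          | zero => simp [Transducer.written, pre]
          | succ n ih =>
            simp only [Transducer.written, ih, pre, List.ofFn_succ']
            simp [List.concat_eq_append]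
        exact ⟨m, by rw [h]; simp⟩
    exact ⟨this, this⟩
  inv_mem' := fun {f} hf => ⟨hf.2, hf.1⟩

/-- Transport along `A^ℕ = Unit × A^ℕ`. -/
def punitConj (A : Type*) [TopologicalSpace A] :
    ((Unit × (ℕ → A)) ≃ₜ (Unit × (ℕ → A))) →* ((ℕ → A) ≃ₜ (ℕ → A)) where
  toFun := fun f => ((Homeomorph.punitProd (ℕ → A)).symm.trans f).trans
    (Homeomorph.punitProd (ℕ → A))
  map_one' := by ext x; rfl
  map_mul' := by intro f g; ext x : 1; rfl

theorem tail_rat {A : Type*} [Finite A] [TopologicalSpace A] [DiscreteTopology A]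
    {f : Unit × (ℕ → A) → Unit × (ℕ → A)} (fc : Continuous f) (hf : TailRule f id) : RatU f := by
  obtain ⟨P, hP, h1, h2⟩ := TailRule.cover fc hf
  refine rational_of_cover ⟨Prod.snd '' P, hP.image _, ?_, ?_⟩
  · intro x
    obtain ⟨u, hu, w, hw⟩ := h1 ((), x)
    exact ⟨u.2, ⟨u, hu, rfl⟩, w, congrArg Prod.snd hw⟩
  · rintro _ ⟨u, hu, rfl⟩
    obtain ⟨v, hv⟩ := h2 u hu
    exact ⟨v.2, fun w => congrArg Prod.snd (hv w)⟩

theorem fails_rational (A : Type*) [Finite A] [Nontrivial A] [TopologicalSpace A]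
    [DiscreteTopology A] : ¬ SatisfiesDTA (rationalHomeos A) := by
  obtain ⟨a0, a1, h01⟩ := exists_pair_ne A
  suffices hb : ∃ H : Subgroup ((Unit × (ℕ → A)) ≃ₜ (Unit × (ℕ → A))),
      H ≤ ratG A ∧ Bad H by
    obtain ⟨H, hHG, hH⟩ := hb
    have := Bad.transfer (punitConj A) (fun w => ((), w)) (by fun_prop) Prod.snd (by fun_prop)
      (fun g x => rfl) (fun g y => rfl) hH
    refine this.not_satisfiesDTA ?_
    rintro _ ⟨g, hg, rfl⟩
    exact (hHG hg).1
  refine bad_B (code3 a0 a1 h01) () (ratG A)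
    (fun f hf => ⟨tail_rat f.continuous hf, tail_rat f.symm.continuous (TailRule.inv_id hf)⟩) ?_
  · intro N hN
    obtain ⟨T, hT⟩ := rational_hmap (code3 a0 a1 h01) (Nmap N)
    have : RatU ((code3 a0 a1 h01).HN (Nmap N) () d3_two (Nmap_sq hN)) := by
      refine ⟨T, ?_⟩
      have h3 : (fun w => ((code3 a0 a1 h01).HN (Nmap N) () d3_two (Nmap_sq hN) ((), w)).2)
          = (code3 a0 a1 h01).hmap (Nmap N) := by
        funext w
        show ((code3 a0 a1 h01).hfun () (Nmap N) ((), w)).2 = _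
        simp [Code.hfun]
      rw [h3]
      exact hT
    exact ⟨this, this⟩

end Pool.Agent.W331.DT
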