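import Pool.Agent.W331.DT.ADefs

set_option autoImplicit false

namespace Pool.Agent.W331.DT

open MeasureTheory Topology

theorem flipA_zero {p : YY} (h : p.1 0 = 0) : flipA p = (cons 1 p.2, sh 1 p.1) := by
  simp [flipA, h]

theorem flipA_one {p : YY} (h : p.1 0 = 1) : flipA p = (cons 0 p.2, sh 1 p.1) := by
  simp [flipA, h]

theorem flipA_other {p : YY} (h : p.1 0 ≠ 0) (h' : p.1 0 ≠ 1) : flipA p = p := by
  simp [flipA, h, h']

@[simp] theorem flipA_cons0 (x Z : Tape) : flipA (cons 0 x, Z) = (cons 1 Z, x) := by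
  rw [flipA_zero rfl]; simp

@[simp] theorem flipA_cons1 (x Z : Tape) : flipA (cons 1 x, Z) = (cons 0 Z, x) := by
  rw [flipA_one rfl]; simp

/-- Every first tape is `cons` of its first letter. -/
theorem exists_cons (X : Tape) : ∃ a x, X = cons a x := ⟨X 0, sh 1 X, (cons_sh X).symm⟩

theorem flipA_flipA (p : YY) : flipA (flipA p) = p := by
  obtain ⟨X, Z⟩ := p
  obtain ⟨a, x, rfl⟩ := exists_cons X
  by_cases h0 : a = 0
  · subst h0; simp
  by_cases h1 : a = 1
  · subst h1; simp
  have h : flipA (cons a x, Z) = (cons a x, Z) := flipA_other (by simpa using h0) (by simpa using h1)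
  rw [h, h]

@[simp] theorem act_cons0 (s : Q4) (x Z : Tape) : act s (cons 0 x, Z) = act1 s x Z := by
  simp [act]

@[simp] theorem act_cons1 (s : Q4) (x Z : Tape) :
    act s (cons 1 x, Z) = flipA (act1 s Z x) := by
  simp [act]

theorem act_other {s : Q4} {p : YY} (h : p.1 0 ≠ 0) (h' : p.1 0 ≠ 1) : act s p = p := by
  simp [act, h, h']

theorem act_flipA (s : Q4) (p : YY) : act s (flipA p) = flipA (act s p) := by
  obtain ⟨X, Z⟩ := p
  obtain ⟨a, x, rfl⟩ := exists_cons X
  by_cases h0 : a = 0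
  · subst h0; simp
  by_cases h1 : a = 1
  · subst h1; simp [flipA_flipA]
  have h : flipA (cons a x, Z) = (cons a x, Z) := flipA_other (by simpa using h0) (by simpa using h1)
  have h' : act s (cons a x, Z) = (cons a x, Z) := act_other (by simpa using h0) (by simpa using h1)
  rw [h, h', h]

theorem jj_ne {s : Q4} (hs : s ≠ 3) : jj s ≠ s ∧ ll s ≠ s ∧ jj s ≠ ll s ∧ jj s ≠ 3 ∧ ll s ≠ 3 := by
  revert s; decide

theorem act_act1 {s : Q4} (hs : s ≠ 3) (x Z : Tape) : act s (act1 s x Z) = (cons 0 x, Z) := by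
  obtain ⟨x0, x1, rfl⟩ := exists_cons x
  obtain ⟨Z0, Z1, rfl⟩ := exists_cons Z
  obtain ⟨hj, hl, hjl, -, -⟩ := jj_ne hs
  by_cases h : x0 = s
  · subst h
    by_cases h1 : x1 0 = x0
    · simp [act1, h1, cons]
    · simp [act1, h1, cons]
  · by_cases hz : Z0 = 0
    · subst hz
      simp [act1, h, cons]
    · by_cases hz1 : Z0 = 1
      · subst hz1
        by_cases hz2 : Z1 0 = s
        · by_cases h2 : x0 = jj s
          · subst h2
            simp [act1, h, hz2, cons, hl, hjl.symm]
          · by_cases h3 : x0 = ll s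
            · subst h3
              by_cases h4 : x1 0 = jj s
              · simp [act1, h, h2, hz2, h4, cons, hj]
              · simp [act1, h, h2, hz2, h4, cons]
            · simp [act1, h, h2, h3, hz2, cons]
        · simp [act1, h, hz2, cons]
      · simp [act1, h, hz, hz1, cons]

theorem act_act {s : Q4} (hs : s ≠ 3) (p : YY) : act s (act s p) = p := by
  obtain ⟨X, Z⟩ := p
  obtain ⟨a, x, rfl⟩ := exists_cons X
  by_cases h0 : a = 0
  · subst h0
    rw [act_cons0, act_act1 hs]
  by_cases h1 : a = 1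
  · subst h1
    rw [act_cons1, act_flipA, act_act1 hs, flipA_cons0]
  have h' : act s (cons a x, Z) = (cons a x, Z) := act_other (by simpa using h0) (by simpa using h1)
  rw [h', h']


@[simp] theorem zrun_zero (y : Tape) : zrun 0 y = cons 1 y := rfl
@[simp] theorem zrun_succ (t : ℕ) (y : Tape) : zrun (t + 1) y = cons 0 (zrun t y) := rfl

theorem cons_zeros : cons (0 : Q4) (fun _ => 0) = fun _ => 0 := by
  funext i; cases i <;> rfl

theorem act_P1_succ {s : Q4} {x : Tape} (hx : x 0 ≠ s) (t : ℕ) (y : Tape) :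
    act s (P1 x (t + 1) y) = P1 (cons s x) t y := by
  simp [P1, act1, hx]

theorem act_P1_cross {s : Q4} {x y : Tape} (hx : x 0 ≠ s) (hy : y 0 ≠ s) :
    act s (P1 x 0 y) = P2 x y 0 := by
  simp only [P1, P2, act_cons0, act1, zrun_zero, sh_one_cons, cons_zero]
  have : cons 1 y 1 = y 0 := rfl
  simp [hx, this, hy]

theorem act_P1_j {s : Q4} (hs : s ≠ 3) {x y : Tape} (hx : x 0 = jj s) (hy : y 0 = s) :
    act s (P1 x 0 y) = P1 (cons (ll s) x) 0 y := by
  obtain ⟨hj, hl, hjl, -, -⟩ := jj_ne hs
  simp only [P1, act_cons0, act1, zrun_zero, sh_one_cons, cons_zero]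
  have : cons 1 y 1 = y 0 := rfl
  simp [hx, this, hy, hj]

theorem act_P1_lj {s : Q4} (hs : s ≠ 3) {x y : Tape} (hx : x 0 = jj s) (hy : y 0 = s) :
    act s (P1 (cons (ll s) x) 0 y) = P1 x 0 y := by
  rw [← act_P1_j hs hx hy, act_act hs]

theorem act_Q1 {s : Q4} {x : Tape} (hx : x 0 ≠ s) : act s (Q1 x) = Q1 (cons s x) := by
  have h : sh 1 (fun _ => (0 : Q4)) = fun _ => 0 := rfl
  simp [Q1, act1, hx, h]

/-- Version of `act_act` for all letters on suitable points. -/
theorem act_P1_cons {s : Q4} {x : Tape} (hx : x 0 ≠ s) (t : ℕ) (y : Tape) :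
    act s (P1 (cons s x) t y) = P1 x (t + 1) y := by
  have h : cons s x 1 = x 0 := rfl
  simp [P1, act1, h, hx]

theorem act_Q1_cons {s : Q4} {x : Tape} (hx : x 0 ≠ s) : act s (Q1 (cons s x)) = Q1 x := by
  have h : cons s x 1 = x 0 := rfl
  simp [Q1, act1, h, hx, cons_zeros]

theorem flipA_P1 (x y : Tape) (t : ℕ) : flipA (P1 x t y) = P2 y x t := by simp [P1, P2]
theorem flipA_P2 (x y : Tape) (t : ℕ) : flipA (P2 x y t) = P1 y t x := by simp [P1, P2]
theorem flipA_Q1 (x : Tape) : flipA (Q1 x) = Q2 x := by simp [Q1, Q2]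
theorem flipA_Q2 (x : Tape) : flipA (Q2 x) = Q1 x := by simp [Q1, Q2]

theorem act_P2_succ {s : Q4} {y : Tape} (hy : y 0 ≠ s) (t : ℕ) (x : Tape) :
    act s (P2 x y (t + 1)) = P2 x (cons s y) t := by
  rw [← flipA_P1, act_flipA, act_P1_succ hy, flipA_P1]

theorem act_P2_cons {s : Q4} {y : Tape} (hy : y 0 ≠ s) (t : ℕ) (x : Tape) :
    act s (P2 x (cons s y) t) = P2 x y (t + 1) := by
  rw [← flipA_P1, act_flipA, act_P1_cons hy, flipA_P1]

theorem act_P2_cross {s : Q4} {x y : Tape} (hx : x 0 ≠ s) (hy : y 0 ≠ s) :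
    act s (P2 x y 0) = P1 x 0 y := by
  rw [← flipA_P1, act_flipA, act_P1_cross hy hx, flipA_P2]

theorem act_Q2 {s : Q4} {x : Tape} (hx : x 0 ≠ s) : act s (Q2 x) = Q2 (cons s x) := by
  rw [← flipA_Q1, act_flipA, act_Q1 hx, flipA_Q1]

theorem act_Q2_cons {s : Q4} {x : Tape} (hx : x 0 ≠ s) : act s (Q2 (cons s x)) = Q2 x := by
  rw [← flipA_Q1, act_flipA, act_Q1_cons hx, flipA_Q1]

theorem Red.cons_iff {s : Q4} {x : Tape} : cons s x ∈ Red ↔ x ∈ Red ∧ x 0 ≠ s ∧ s ≠ 3 := by
  constructor
  · intro h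
    exact ⟨fun n => h (n + 1), fun h0 => (h 0).2 h0.symm, (h 0).1⟩
  · rintro ⟨hx, h0, hs⟩ n
    cases n with
    | zero => exact ⟨hs, fun h => h0 h.symm⟩
    | succ n => exact hx n

theorem flipA_mem_EA {p : YY} (hp : p ∈ EA) : flipA p ∈ EA := by
  rcases hp with ⟨x, hx, rfl | rfl⟩ | ⟨x, hx, y, hy, t, rfl | rfl⟩
  · rw [flipA_Q1]; exact Or.inl ⟨x, hx, Or.inr rfl⟩
  · rw [flipA_Q2]; exact Or.inl ⟨x, hx, Or.inl rfl⟩
  · rw [flipA_P1]; exact Or.inr ⟨y, hy, x, hx, t, Or.inr rfl⟩
  · rw [flipA_P2]; exact Or.inr ⟨y, hy, x, hx, t, Or.inl rfl⟩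

/-- The letter `s` preserves the zone 1 part of `EA`, up to crossing. -/
theorem act_zone1 {s : Q4} (hs : s ≠ 3) {x y : Tape} (hx : x ∈ Red) (hy : y ∈ Red) (t : ℕ) :
    act s (P1 x t y) ∈ EA := by
  obtain ⟨hj, hl, hjl, hj3, hl3⟩ := jj_ne hs
  by_cases h : x 0 = s
  · have h1 : x = cons s (sh 1 x) := by rw [← h, cons_sh]
    have h2 : sh 1 x ∈ Red ∧ sh 1 x 0 ≠ s ∧ s ≠ 3 := Red.cons_iff.1 (by rw [← h1]; exact hx)
    rw [h1, act_P1_cons h2.2.1]
    exact Or.inr ⟨_, h2.1, y, hy, t + 1, Or.inl rfl⟩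
  · cases t with
    | succ t =>
      rw [act_P1_succ h]
      exact Or.inr ⟨_, Red.cons_iff.2 ⟨hx, h, hs⟩, y, hy, t, Or.inl rfl⟩
    | zero =>
      by_cases h1 : y 0 = s
      · by_cases h2 : x 0 = jj s
        · rw [act_P1_j hs h2 h1]
          exact Or.inr ⟨_, Red.cons_iff.2 ⟨hx, by rw [h2]; exact hjl, hl3⟩, y, hy, 0, Or.inl rfl⟩
        · by_cases h3 : x 0 = ll s
          · have h4 : x = cons (ll s) (sh 1 x) := by rw [← h3, cons_sh]
            have h5 : sh 1 x ∈ Red ∧ sh 1 x 0 ≠ ll s ∧ ll s ≠ 3 :=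
              Red.cons_iff.1 (by rw [← h4]; exact hx)
            by_cases h6 : sh 1 x 0 = jj s
            · rw [h4, act_P1_lj hs h6 h1]
              exact Or.inr ⟨_, h5.1, y, hy, 0, Or.inl rfl⟩
            · have : act s (P1 x 0 y) = P1 x 0 y := by
                have h7 : cons 1 y 1 = y 0 := rfl
                have h8 : x 1 ≠ jj s := by simpa [sh] using h6
                simp [P1, act1, h, h1, h2, h7, h8]
              rw [this]
              exact Or.inr ⟨x, hx, y, hy, 0, Or.inl rfl⟩
          · exfalso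
            have h3' : x 0 ≠ 3 := (hx 0).1
            clear h1
            revert h h2 h3 h3' hs
            generalize x 0 = a
            revert s a
            decide
      · rw [act_P1_cross h h1]
        exact Or.inr ⟨x, hx, y, hy, 0, Or.inr rfl⟩

theorem act_Q1_mem {s : Q4} (hs : s ≠ 3) {x : Tape} (hx : x ∈ Red) : act s (Q1 x) ∈ EA := by
  by_cases h : x 0 = s
  · have h1 : x = cons s (sh 1 x) := by rw [← h, cons_sh]
    have h2 : sh 1 x ∈ Red ∧ sh 1 x 0 ≠ s ∧ s ≠ 3 := Red.cons_iff.1 (by rw [← h1]; exact hx)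
    rw [h1, act_Q1_cons h2.2.1]
    exact Or.inl ⟨_, h2.1, Or.inl rfl⟩
  · rw [act_Q1 h]
    exact Or.inl ⟨_, Red.cons_iff.2 ⟨hx, h, hs⟩, Or.inl rfl⟩

theorem act_mem_EA {s : Q4} (hs : s ≠ 3) {p : YY} (hp : p ∈ EA) : act s p ∈ EA := by
  rcases hp with ⟨x, hx, rfl | rfl⟩ | ⟨x, hx, y, hy, t, rfl | rfl⟩
  · exact act_Q1_mem hs hx
  · rw [← flipA_Q1, act_flipA]
    exact flipA_mem_EA (act_Q1_mem hs hx)
  · exact act_zone1 hs hx hy t
  · rw [← flipA_P1, act_flipA]
    exact flipA_mem_EA (act_zone1 hs hy hx t)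

/-! ### locality -/

/-- `f` is given locally by dropping letters and writing words in front, on both tapes. -/
def Loc2 (f : YY → YY) : Prop :=
  ∀ p : YY, ∃ a b c d : ℕ, ∃ u v : List Q4, ∀ᶠ q : YY in 𝓝 p,
    f q = (app u (sh b q.1), app v (sh d q.2)) ∧ a = u.length ∧ c = v.length

theorem Loc2.tail {f : YY → YY} (hf : Loc2 f) : TailRule2 f := by
  intro p
  obtain ⟨a, b, c, d, u, v, h⟩ := hf p
  refine ⟨a, b, c, d, ?_⟩
  filter_upwards [h] with q hq
  obtain ⟨h1, rfl, rfl⟩ := hq
  rw [h1]
  exact ⟨sh_app _ _, sh_app _ _⟩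

theorem Loc2.continuous {f : YY → YY} (hf : Loc2 f) : Continuous f := by
  rw [continuous_iff_continuousAt]
  intro p
  obtain ⟨a, b, c, d, u, v, h⟩ := hf p
  have hc : Continuous fun q : YY => ((app u (sh b q.1), app v (sh d q.2)) : YY) :=
    Continuous.prodMk ((continuous_app u).comp ((continuous_sh b).comp continuous_fst))
      ((continuous_app v).comp ((continuous_sh d).comp continuous_snd))
  exact hc.continuousAt.congr (by filter_upwards [h] with q hq using hq.1.symm)

/-- The first letters are locally constant. -/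
theorem near_letters (p : YY) : ∀ᶠ q : YY in 𝓝 p,
    q.1 0 = p.1 0 ∧ q.1 1 = p.1 1 ∧ q.1 2 = p.1 2 ∧ q.2 0 = p.2 0 ∧ q.2 1 = p.2 1 ∧
      q.2 2 = p.2 2 := by
  have h1 : ∀ᶠ q : YY in 𝓝 p, ∀ i < 3, q.1 i = p.1 i :=
    continuous_fst.continuousAt.eventually (eventually_agree p.1 3)
  have h2 : ∀ᶠ q : YY in 𝓝 p, ∀ i < 3, q.2 i = p.2 i :=
    continuous_snd.continuousAt.eventually (eventually_agree p.2 3)
  filter_upwards [h1, h2] with q ha hb
  exact ⟨ha 0 (by norm_num), ha 1 (by norm_num), ha 2 (by norm_num), hb 0 (by norm_num),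
    hb 1 (by norm_num), hb 2 (by norm_num)⟩


theorem cons_sh_of {X : Tape} {a : Q4} (h : X 0 = a) : cons a (sh 1 X) = X := by
  rw [← h, cons_sh]

theorem sh_one_one (X : Tape) : sh 1 (sh 1 X) = sh 2 X := sh_sh 1 1 X

theorem continuous_flipA : Continuous flipA := by
  rw [continuous_iff_continuousAt]
  intro p
  by_cases h0 : p.1 0 = 0
  · have hc : Continuous fun q : YY => ((cons 1 q.2, sh 1 q.1) : YY) :=
      Continuous.prodMk ((continuous_cons 1).comp continuous_snd)
        ((continuous_sh 1).comp continuous_fst)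
    refine hc.continuousAt.congr ?_
    filter_upwards [near_letters p] with q hq
    rw [flipA_zero (by rw [hq.1, h0])]
  · by_cases h1 : p.1 0 = 1
    · have hc : Continuous fun q : YY => ((cons 0 q.2, sh 1 q.1) : YY) :=
        Continuous.prodMk ((continuous_cons 0).comp continuous_snd)
          ((continuous_sh 1).comp continuous_fst)
      refine hc.continuousAt.congr ?_
      filter_upwards [near_letters p] with q hq
      rw [flipA_one (by rw [hq.1, h1])]
    · refine continuousAt_id.congr ?_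
      filter_upwards [near_letters p] with q hq
      rw [flipA_other (by rw [hq.1]; exact h0) (by rw [hq.1]; exact h1)]
      rfl

theorem loc2_of {f : YY → YY} {p : YY} (b d : ℕ) (u v : List Q4)
    (h : ∀ q : YY, (q.1 0 = p.1 0 ∧ q.1 1 = p.1 1 ∧ q.1 2 = p.1 2 ∧ q.2 0 = p.2 0 ∧
      q.2 1 = p.2 1 ∧ q.2 2 = p.2 2) → f q = (app u (sh b q.1), app v (sh d q.2))) :
    ∃ a b c d : ℕ, ∃ u v : List Q4, ∀ᶠ q : YY in 𝓝 p,
      f q = (app u (sh b q.1), app v (sh d q.2)) ∧ a = u.length ∧ c = v.length := by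
  refine ⟨u.length, b, v.length, d, u, v, ?_⟩
  filter_upwards [near_letters p] with q hq
  exact ⟨h q hq, rfl, rfl⟩

theorem loc2_act (s : Q4) : Loc2 (act s) := by
  intro p
  by_cases h0 : p.1 0 = 0
  · -- zone 1
    have key : ∀ q : YY, q.1 0 = p.1 0 → act s q = act1 s (sh 1 q.1) q.2 := by
      intro q hq
      simp [act, hq, h0]
    by_cases h1 : p.1 1 = s
    · by_cases h2 : p.1 2 = s
      · refine loc2_of 0 0 [] [] ?_
        rintro q ⟨a1, a2, a3, a4, a5, a6⟩
        rw [key q a1]
        simp [act1, a2, a3, h1, h2, cons_sh_of (a1.trans h0)]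
      · refine loc2_of 2 0 [0] [0] ?_
        rintro q ⟨a1, a2, a3, a4, a5, a6⟩
        rw [key q a1]
        simp [act1, a2, a3, h1, h2, sh_one_one]
    · by_cases h3 : p.2 0 = 0
      · refine loc2_of 1 1 [0, s] [] ?_
        rintro q ⟨a1, a2, a3, a4, a5, a6⟩
        rw [key q a1]
        simp [act1, a2, a4, h1, h3]
      · by_cases h4 : p.2 0 = 1
        · by_cases h5 : p.2 1 = s
          · by_cases h6 : p.1 1 = jj s
            · refine loc2_of 1 0 [0, ll s] [] ?_
              rintro q ⟨a1, a2, a3, a4, a5, a6⟩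
              rw [key q a1]
              simp only [act1, sh_apply, Nat.add_zero, a2, a4, a5, h4, h5]
              simp [h6, show ¬ jj s = s from fun hc => h1 (h6.trans hc)]
            · by_cases h7 : p.1 1 = ll s ∧ p.1 2 = jj s
              · refine loc2_of 2 0 [0] [] ?_
                rintro q ⟨a1, a2, a3, a4, a5, a6⟩
                rw [key q a1]
                have e1 : q.1 1 = ll s := a2.trans h7.1
                have e2 : q.1 2 = jj s := a3.trans h7.2
                have e3 : ¬ ll s = s := fun hc => h1 (h7.1.trans hc)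
                have e4 : ¬ ll s = jj s := fun hc => h6 (h7.1.trans hc)
                simp [act1, e1, e2, e3, e4, a4, a5, h4, h5, sh_one_one]
              · refine loc2_of 0 0 [] [] ?_
                rintro q ⟨a1, a2, a3, a4, a5, a6⟩
                rw [key q a1]
                have e1 : sh 1 q.1 0 = p.1 1 := by simpa using a2
                have e2 : sh 1 q.1 1 = p.1 2 := a3
                simp only [act1, e1, e2, a4, a5]
                rw [if_neg h1, if_neg h3, if_pos h4, if_neg (not_not.2 h5), if_neg h6, if_neg h7,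
                  cons_sh_of (a1.trans h0)]
                simp
          · refine loc2_of 1 1 [1, 1] [] ?_
            rintro q ⟨a1, a2, a3, a4, a5, a6⟩
            rw [key q a1]
            simp [act1, a2, a4, a5, h1, h4, h5]
        · refine loc2_of 0 0 [] [] ?_
          rintro q ⟨a1, a2, a3, a4, a5, a6⟩
          rw [key q a1]
          simp [act1, a2, a4, h1, h3, h4, cons_sh_of (a1.trans h0)]
  by_cases h0' : p.1 0 = 1
  · -- zone 2
    have key : ∀ q : YY, q.1 0 = p.1 0 → act s q = flipA (act1 s q.2 (sh 1 q.1)) := by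
      intro q hq
      simp [act, hq, h0']
    by_cases h1 : p.2 0 = s
    · by_cases h2 : p.2 1 = s
      · refine loc2_of 0 0 [] [] ?_
        rintro q ⟨a1, a2, a3, a4, a5, a6⟩
        rw [key q a1]
        simp [act1, a4, a5, h1, h2, cons_sh_of (a1.trans h0')]
      · refine loc2_of 1 1 [1, 0] [] ?_
        rintro q ⟨a1, a2, a3, a4, a5, a6⟩
        rw [key q a1]
        simp [act1, a4, a5, h1, h2]
    · by_cases h3 : p.1 1 = 0
      · refine loc2_of 2 0 [1] [s] ?_
        rintro q ⟨a1, a2, a3, a4, a5, a6⟩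
        rw [key q a1]
        simp [act1, a2, a4, h1, h3, sh_one_one]
      · by_cases h4 : p.1 1 = 1
        · by_cases h5 : p.1 2 = s
          · by_cases h6 : p.2 0 = jj s
            · refine loc2_of 0 0 [] [ll s] ?_
              rintro q ⟨a1, a2, a3, a4, a5, a6⟩
              rw [key q a1]
              have e1 : q.1 1 = 1 := a2.trans h4
              have e2 : q.1 2 = s := a3.trans h5
              have e3 : ¬ jj s = s := fun hc => h1 (h6.trans hc)
              simp [act1, e1, e2, e3, a4, h6, cons_sh_of (a1.trans h0')]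
            · by_cases h7 : p.2 0 = ll s ∧ p.2 1 = jj s
              · refine loc2_of 0 1 [] [] ?_
                rintro q ⟨a1, a2, a3, a4, a5, a6⟩
                rw [key q a1]
                have e1 : q.1 1 = 1 := a2.trans h4
                have e2 : q.1 2 = s := a3.trans h5
                have e3 : ¬ ll s = s := fun hc => h1 (h7.1.trans hc)
                have e4 : ¬ ll s = jj s := fun hc => h6 (h7.1.trans hc)
                simp [act1, e1, e2, e3, e4, a4, a5, h7.1, h7.2, cons_sh_of (a1.trans h0')]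
              · refine loc2_of 0 0 [] [] ?_
                rintro q ⟨a1, a2, a3, a4, a5, a6⟩
                rw [key q a1]
                have e1 : sh 1 q.1 0 = 1 := by simpa using a2.trans h4
                have e2 : sh 1 q.1 1 = s := a3.trans h5
                simp only [act1, e1, e2, a4, a5]
                rw [if_neg h1, if_neg (by decide), if_pos trivial, if_neg (by simp), if_neg h6,
                  if_neg h7, flipA_cons0, cons_sh_of (a1.trans h0')]
                simp
          · refine loc2_of 2 0 [0] [1] ?_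
            rintro q ⟨a1, a2, a3, a4, a5, a6⟩
            rw [key q a1]
            have e1 : sh 1 q.1 0 = 1 := by simpa using a2.trans h4
            have e2 : sh 1 q.1 1 ≠ s := fun hc => h5 (a3.symm.trans hc)
            simp only [act1, e1, a4]
            rw [if_neg h1, if_neg (by decide), if_pos trivial, if_pos e2, flipA_cons1, sh_one_one]
            simp
        · refine loc2_of 0 0 [] [] ?_
          rintro q ⟨a1, a2, a3, a4, a5, a6⟩
          rw [key q a1]
          simp [act1, a2, a4, h1, h3, h4, cons_sh_of (a1.trans h0')]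
  · refine loc2_of 0 0 [] [] ?_
    rintro q ⟨a1, a2, a3, a4, a5, a6⟩
    rw [act_other (by rw [a1]; exact h0) (by rw [a1]; exact h0')]
    simp

theorem continuous_act (s : Q4) : Continuous (act s) := (loc2_act s).continuous

theorem tailRule2_act (s : Q4) : TailRule2 (act s) := (loc2_act s).tail


/-! ### words -/

theorem wact_append (u v : List Q4) (p : YY) : wact (u ++ v) p = wact u (wact v p) := by
  induction u with
  | nil => rfl
  | cons a u ih => simp [wact, ih]

theorem wact_mem_EA {w : List Q4} (hw : ∀ s ∈ w, s ≠ 3) {p : YY} (hp : p ∈ EA) :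
    wact w p ∈ EA := by
  induction w with
  | nil => simpa [wact] using hp
  | cons a u ih =>
    simp only [wact]
    exact act_mem_EA (hw a (by simp)) (ih fun s hs => hw s (by simp [hs]))

theorem wact_reverse {w : List Q4} (hw : ∀ s ∈ w, s ≠ 3) (p : YY) :
    wact w.reverse (wact w p) = p := by
  induction w with
  | nil => simp [wact]
  | cons a u ih =>
    simp only [wact, List.reverse_cons, wact_append]
    rw [act_act (hw a (by simp))]
    exact ih fun s hs => hw s (by simp [hs])

theorem WAct.comp {f g : YY → YY} (hf : WAct f) (hg : WAct g) : WAct (fun p => f (g p)) := by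
  obtain ⟨u, hu, hu'⟩ := hf
  obtain ⟨v, hv, hv'⟩ := hg
  refine ⟨u ++ v, ?_, ?_⟩
  · intro s hs
    rcases List.mem_append.1 hs with h | h
    · exact hu s h
    · exact hv s h
  · intro p hp
    show f (g p) = _
    rw [hv' p hp, hu' _ (wact_mem_EA hv hp), wact_append]

theorem WAct.symm {f : YY ≃ₜ YY} (hf : WAct f) : WAct f.symm := by
  obtain ⟨u, hu, hu'⟩ := hf
  have hr : ∀ s ∈ u.reverse, s ≠ 3 := fun s hs => hu s (by simpa using hs)
  refine ⟨u.reverse, hr, ?_⟩
  intro p hp
  rw [Homeomorph.symm_apply_eq, hu' _ (wact_mem_EA hr hp)]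
  have := wact_reverse hr p
  simpa using this.symm

/-- The homeomorphism `act s`. -/
def actH (s : Q4) (hs : s ≠ 3) : YY ≃ₜ YY where
  toFun := act s
  invFun := act s
  left_inv := act_act hs
  right_inv := act_act hs
  continuous_toFun := continuous_act s
  continuous_invFun := continuous_act s

end Pool.Agent.W331.DT
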