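import Pool.Agent.W331.DT.Basic

set_option autoImplicit false

namespace Pool.Agent.W331.DT

open MeasureTheory Topology

/-- The subgroup `H` has no invariant Borel probability measure and no ping-pong pair. -/
def Bad {X : Type*} [TopologicalSpace X] (H : Subgroup (X ≃ₜ X)) : Prop :=
  (∀ μ : @Measure X (borel X), @IsProbabilityMeasure X (borel X) μ →
      (∀ h ∈ H, @Measure.map X X (borel X) (borel X) (h : X → X) μ = μ) → False) ∧
    ¬ HasPingPong H

theorem Bad.not_satisfiesDTA {X : Type*} [TopologicalSpace X] {H : Subgroup (X ≃ₜ X)}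
    (hH : Bad H) {G : Set (X ≃ₜ X)} (hG : ∀ g ∈ H, g ∈ G) : ¬ SatisfiesDTA G := by
  intro hS
  rcases hS H hG with ⟨μ, hμ, -, hinv⟩ | hp
  · exact hH.1 μ hμ hinv
  · exact hH.2 hp

theorem Bad.transfer {X Y : Type*} [TopologicalSpace X] [TopologicalSpace Y]
    (L : (Y ≃ₜ Y) →* (X ≃ₜ X)) (π : X → Y) (hπ : Continuous π) (j : Y → X) (hj : Continuous j)
    (h1 : ∀ g x, π (L g x) = g (π x)) (h2 : ∀ g y, L g (j y) = j (g y))
    {H : Subgroup (Y ≃ₜ Y)} (hH : Bad H) : Bad (H.map L) := by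
  constructor
  · intro μ hμ hinv
    let mX : MeasurableSpace X := borel X
    let mY : MeasurableSpace Y := borel Y
    have bX : BorelSpace X := ⟨rfl⟩
    have bY : BorelSpace Y := ⟨rfl⟩
    have hmπ : Measurable π := hπ.measurable
    refine hH.1 (μ.map π) ?_ ?_
    · exact Measure.isProbabilityMeasure_map hmπ.aemeasurable
    · intro h hh
      have hm : Measurable (h : Y → Y) := h.continuous.measurable
      have hmL : Measurable (L h : X → X) := (L h).continuous.measurable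
      rw [Measure.map_map hm hmπ]
      have : (h : Y → Y) ∘ π = π ∘ (L h : X → X) := by
        funext x
        exact (h1 h x).symm
      rw [this, ← Measure.map_map hmπ hmL]
      congr 1
      exact hinv (L h) ⟨h, hh, rfl⟩
  · rintro ⟨g', ⟨g, hg, rfl⟩, k', ⟨k, hk, rfl⟩, U₁, U₂, V₁, V₂, ⟨o1, o2, o3, o4⟩,
      ⟨d1, d2, d3, d4, d5, d6⟩, m1, m2⟩
    refine hH.2 ⟨g, hg, k, hk, j ⁻¹' U₁, j ⁻¹' U₂, j ⁻¹' V₁, j ⁻¹' V₂,
      ⟨o1.preimage hj, o2.preimage hj, o3.preimage hj, o4.preimage hj⟩,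
      ⟨d1.preimage j, d2.preimage j, d3.preimage j, d4.preimage j, d5.preimage j,
        d6.preimage j⟩, ?_, ?_⟩
    · rintro _ ⟨y, hy, rfl⟩
      show j (g y) ∈ V₁
      rw [← h2]
      exact m1 ⟨j y, hy, rfl⟩
    · rintro _ ⟨y, hy, rfl⟩
      show j (k y) ∈ V₂
      rw [← h2]
      exact m2 ⟨j y, hy, rfl⟩

end Pool.Agent.W331.DT
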