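import Pool.Agent.W331.DT.Basic

set_option autoImplicit false

namespace Pool.Agent.W331.DT

open MeasureTheory Topology

/-- The alphabet of the tapes in part A. -/
abbrev Q4 : Type := Fin 4
/-- One tape. -/
abbrev Tape : Type := ℕ → Q4
/-- Two tapes. -/
abbrev YY : Type := Tape × Tape

/-- The exchange of the two zones. -/
def flipA (p : YY) : YY :=
  if p.1 0 = 0 then (cons 1 p.2, sh 1 p.1)
  else if p.1 0 = 1 then (cons 0 p.2, sh 1 p.1)
  else p

/-- `s + 1` modulo `3`. -/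
def jj : Q4 → Q4 := ![1, 2, 0, 3]
/-- `s + 2` modulo `3`. -/
def ll : Q4 → Q4 := ![2, 0, 1, 3]

/-- The action of the letter `s` on the point `(cons 0 x, Z)` of zone 1. -/
def act1 (s : Q4) (x Z : Tape) : YY :=
  if x 0 = s then
    if x 1 = s then (cons 0 x, Z) else (cons 0 (sh 1 x), cons 0 Z)
  else if Z 0 = 0 then (cons 0 (cons s x), sh 1 Z)
  else if Z 0 = 1 then
    if Z 1 ≠ s then (cons 1 (cons 1 x), sh 1 Z)
    else if x 0 = jj s then (cons 0 (cons (ll s) x), Z)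
    else if x 0 = ll s ∧ x 1 = jj s then (cons 0 (sh 1 x), Z)
    else (cons 0 x, Z)
  else (cons 0 x, Z)

/-- The action of the letter `s` on two tapes. -/
def act (s : Q4) (p : YY) : YY :=
  if p.1 0 = 0 then act1 s (sh 1 p.1) p.2
  else if p.1 0 = 1 then flipA (act1 s p.2 (sh 1 p.1))
  else p

/-- The action of a word of letters. -/
def wact : List Q4 → YY → YY
  | [], p => p
  | s :: w, p => act s (wact w p)

/-- Reduced infinite words in the letters `0, 1, 2`. -/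
def Red : Set Tape := {x | ∀ n, x n ≠ 3 ∧ x n ≠ x (n + 1)}

/-- The word `0^t 1 y`. -/
def zrun (t : ℕ) (y : Tape) : Tape := app (List.replicate t 0) (cons 1 y)

def Q1 (x : Tape) : YY := (cons 0 x, fun _ => 0)
def Q2 (y : Tape) : YY := (cons 1 (fun _ => 0), y)
def P1 (x : Tape) (t : ℕ) (y : Tape) : YY := (cons 0 x, zrun t y)
def P2 (x y : Tape) (t : ℕ) : YY := (cons 1 (zrun t x), y)

/-- The invariant closed set. -/
def EA : Set YY :=
  {p | (∃ x ∈ Red, p = Q1 x ∨ p = Q2 x) ∨ ∃ x ∈ Red, ∃ y ∈ Red, ∃ t, p = P1 x t y ∨ p = P2 x y t}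

/-- `g` acts on `EA` as a word. -/
def WAct (g : YY → YY) : Prop :=
  ∃ w : List Q4, (∀ s ∈ w, s ≠ 3) ∧ ∀ p ∈ EA, g p = wact w p

/-- Tail rule on two tapes. -/
def TailRule2 (f : YY → YY) : Prop :=
  ∀ p, ∃ a b c d : ℕ, ∀ᶠ q in 𝓝 p, sh a (f q).1 = sh b q.1 ∧ sh c (f q).2 = sh d q.2

/-- Tail rule on `C^n`. -/
def TailRuleN {n : ℕ} (f : (Fin n → ℕ → Bool) → (Fin n → ℕ → Bool)) : Prop :=
  ∀ x, ∃ a b : Fin n → ℕ, ∀ᶠ y in 𝓝 x, ∀ i, sh (a i) (f y i) = sh (b i) (y i)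

end Pool.Agent.W331.DT
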