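import Pool.Agent.W331.DT.AWord
import Pool.Agent.W331.DT.AMeas
import Pool.Agent.W331.DT.ABrin
import Pool.Agent.W331.DT.Transfer

set_option autoImplicit false

namespace Pool.Agent.W331.DT

open MeasureTheory Topology

/-- The bad subgroup on two tapes. -/
def HA : Subgroup (YY ≃ₜ YY) where
  carrier := {g | TailRule2 g ∧ WAct g}
  mul_mem' := fun {f g} hf hg =>
    ⟨(TailRule2.comp hf.1 hg.1 g.continuous : TailRule2 fun x => f (g x)),
      (WAct.comp hf.2 hg.2 : WAct fun x => f (g x))⟩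
  one_mem' := ⟨fun p => ⟨0, 0, 0, 0, Filter.Eventually.of_forall fun q => ⟨rfl, rfl⟩⟩,
    ⟨[], by simp, fun p _ => rfl⟩⟩
  inv_mem' := fun {g} hg => ⟨TailRule2.symm hg.1, WAct.symm hg.2⟩

theorem bad_HA : Bad HA := by
  constructor
  · intro μ hμ hinv
    let mY : MeasurableSpace YY := borel YY
    have bY : BorelSpace YY := ⟨rfl⟩
    have : IsProbabilityMeasure μ := hμ
    refine no_measure_A μ (fun f hf hfix => hinv f ⟨hf, [], by simp, fun p hp => hfix p hp⟩)
      (fun s hs => hinv (actH s hs) ⟨tailRule2_act s, [s], by simpa using hs, fun p hp => rfl⟩)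
  · exact no_pingpong_A HA fun g hg => hg.2

theorem fails_A {n : ℕ} (hn : 2 ≤ n) : ¬ SatisfiesDTA (brinThompson n) := by
  obtain ⟨L, π, j, hπ, hj, h1, h2, hT⟩ := exists_lift hn
  refine (Bad.transfer L π hπ j hj h1 h2 bad_HA).not_satisfiesDTA ?_
  rintro _ ⟨g, hg, rfl⟩
  exact brin_of_tail (L g) (hT g hg.1)

end Pool.Agent.W331.DT
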