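import Pool.Agent.W331.DT.ADefs
import Pool.Agent.W331.DT.Transfer

set_option autoImplicit false

namespace Pool.Agent.W331.DT

open MeasureTheory Topology

/- ===== TASK DT-A1: file AAct.lean ===== -/

theorem flipA_flipA (p : YY) : flipA (flipA p) = p := sorry

theorem continuous_flipA : Continuous flipA := sorry

theorem act_flipA (s : Q4) (p : YY) : act s (flipA p) = flipA (act s p) := sorry

theorem act_act {s : Q4} (hs : s ≠ 3) (p : YY) : act s (act s p) = p := sorry

theorem continuous_act (s : Q4) : Continuous (act s) := sorry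

theorem tailRule2_act (s : Q4) : TailRule2 (act s) := sorry

theorem act_P1_succ {s : Q4} {x : Tape} (hx : x 0 ≠ s) (t : ℕ) (y : Tape) :
    act s (P1 x (t + 1) y) = P1 (cons s x) t y := sorry

theorem act_P1_cons {s : Q4} {x : Tape} (hx : x 0 ≠ s) (t : ℕ) (y : Tape) :
    act s (P1 (cons s x) t y) = P1 x (t + 1) y := sorry

theorem act_P1_cross {s : Q4} {x y : Tape} (hx : x 0 ≠ s) (hy : y 0 ≠ s) :
    act s (P1 x 0 y) = P2 x y 0 := sorry

theorem act_P1_j {s : Q4} (hs : s ≠ 3) {x y : Tape} (hx : x 0 = jj s) (hy : y 0 = s) :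
    act s (P1 x 0 y) = P1 (cons (ll s) x) 0 y := sorry

theorem act_P1_lj {s : Q4} (hs : s ≠ 3) {x y : Tape} (hx : x 0 = jj s) (hy : y 0 = s) :
    act s (P1 (cons (ll s) x) 0 y) = P1 x 0 y := sorry

theorem act_Q1 {s : Q4} {x : Tape} (hx : x 0 ≠ s) : act s (Q1 x) = Q1 (cons s x) := sorry

theorem act_Q1_cons {s : Q4} {x : Tape} (hx : x 0 ≠ s) : act s (Q1 (cons s x)) = Q1 x := sorry

theorem act_P2_succ {s : Q4} {y : Tape} (hy : y 0 ≠ s) (t : ℕ) (x : Tape) :
    act s (P2 x y (t + 1)) = P2 x (cons s y) t := sorry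

theorem act_P2_cons {s : Q4} {y : Tape} (hy : y 0 ≠ s) (t : ℕ) (x : Tape) :
    act s (P2 x (cons s y) t) = P2 x y (t + 1) := sorry

theorem act_P2_cross {s : Q4} {x y : Tape} (hx : x 0 ≠ s) (hy : y 0 ≠ s) :
    act s (P2 x y 0) = P1 x 0 y := sorry

theorem act_Q2 {s : Q4} {x : Tape} (hx : x 0 ≠ s) : act s (Q2 x) = Q2 (cons s x) := sorry

theorem act_Q2_cons {s : Q4} {x : Tape} (hx : x 0 ≠ s) : act s (Q2 (cons s x)) = Q2 x := sorry

theorem flipA_P1 (x y : Tape) (t : ℕ) : flipA (P1 x t y) = P2 y x t := sorry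
theorem flipA_P2 (x y : Tape) (t : ℕ) : flipA (P2 x y t) = P1 y t x := sorry
theorem flipA_Q1 (x : Tape) : flipA (Q1 x) = Q2 x := sorry
theorem flipA_Q2 (x : Tape) : flipA (Q2 x) = Q1 x := sorry

theorem act_mem_EA {s : Q4} (hs : s ≠ 3) {p : YY} (hp : p ∈ EA) : act s p ∈ EA := sorry

theorem flipA_mem_EA {p : YY} (hp : p ∈ EA) : flipA p ∈ EA := sorry

/- ===== TASK DT-A2: file AWord.lean: no ping-pong ===== -/

theorem no_pingpong_A (H : Subgroup (YY ≃ₜ YY)) (hH : ∀ g ∈ H, WAct g) : ¬ HasPingPong H := sorry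

/- ===== TASK DT-A3: file AMeas.lean ===== -/

theorem isClosed_EA : IsClosed EA := sorry

theorem no_measure_A [MeasurableSpace YY] [BorelSpace YY] (μ : Measure YY)
    [IsProbabilityMeasure μ]
    (hswap : ∀ f : YY ≃ₜ YY, TailRule2 f → (∀ x ∈ EA, f x = x) → μ.map f = μ)
    (hact : ∀ s : Q4, s ≠ 3 → μ.map (act s) = μ) : False := sorry

/- ===== TASK DT-A4: file ABrin.lean ===== -/

theorem brin_of_tail {n : ℕ} (f : (Fin n → ℕ → Bool) ≃ₜ (Fin n → ℕ → Bool)) (hf : TailRuleN f) :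
    f ∈ brinThompson n := sorry

theorem TailRule2.comp {f g : YY → YY} (hf : TailRule2 f) (hg : TailRule2 g)
    (gc : Continuous g) : TailRule2 (fun x => f (g x)) := sorry

theorem TailRule2.symm {f : YY ≃ₜ YY} (hf : TailRule2 f) : TailRule2 f.symm := sorry

theorem exists_lift {n : ℕ} (hn : 2 ≤ n) :
    ∃ (L : (YY ≃ₜ YY) →* ((Fin n → ℕ → Bool) ≃ₜ (Fin n → ℕ → Bool)))
      (π : (Fin n → ℕ → Bool) → YY) (j : YY → (Fin n → ℕ → Bool)),
      Continuous π ∧ Continuous j ∧ (∀ g x, π (L g x) = g (π x)) ∧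
      (∀ g y, L g (j y) = j (g y)) ∧ ∀ g : YY ≃ₜ YY, TailRule2 g → TailRuleN (L g) := sorry

/- ===== assembly of part A ===== -/

theorem wact_append (u v : List Q4) (p : YY) : wact (u ++ v) p = wact u (wact v p) := by
  induction u with
  | nil => rfl
  | cons a u ih => simp [wact, ih]

theorem wact_mem_EA {w : List Q4} (hw : ∀ s ∈ w, s ≠ 3) {p : YY} (hp : p ∈ EA) :
    wact w p ∈ EA := by
  induction w with
  | nil => simpa [wact] using hp
  | cons a u ih =>
    simp only [wact]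
    exact act_mem_EA (hw a (by simp)) (ih fun s hs => hw s (by simp [hs]))

theorem wact_reverse {w : List Q4} (hw : ∀ s ∈ w, s ≠ 3) (p : YY) :
    wact w.reverse (wact w p) = p := by
  induction w with
  | nil => simp [wact]
  | cons a u ih =>
    simp only [wact, List.reverse_cons, wact_append]
    rw [act_act (hw a (by simp))]
    exact ih fun s hs => hw s (by simp [hs])

theorem WAct.comp {f g : YY → YY} (hf : WAct f) (hg : WAct g) : WAct (fun p => f (g p)) := by
  obtain ⟨u, hu, hu'⟩ := hf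
  obtain ⟨v, hv, hv'⟩ := hg
  refine ⟨u ++ v, ?_, ?_⟩
  · intro s hs
    rcases List.mem_append.1 hs with h | h
    · exact hu s h
    · exact hv s h
  · intro p hp
    show f (g p) = _
    rw [hv' p hp, hu' _ (wact_mem_EA hv hp), wact_append]

theorem WAct.symm {f : YY ≃ₜ YY} (hf : WAct f) : WAct f.symm := by
  obtain ⟨u, hu, hu'⟩ := hf
  have hr : ∀ s ∈ u.reverse, s ≠ 3 := fun s hs => hu s (by simpa using hs)
  refine ⟨u.reverse, hr, ?_⟩
  intro p hp
  rw [Homeomorph.symm_apply_eq, hu' _ (wact_mem_EA hr hp)]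
  have := wact_reverse hr p
  simpa using this.symm

/-- The homeomorphism `act s`. -/
def actH (s : Q4) (hs : s ≠ 3) : YY ≃ₜ YY where
  toFun := act s
  invFun := act s
  left_inv := act_act hs
  right_inv := act_act hs
  continuous_toFun := continuous_act s
  continuous_invFun := continuous_act s

/-- The bad subgroup on two tapes. -/
def HA : Subgroup (YY ≃ₜ YY) where
  carrier := {g | TailRule2 g ∧ WAct g}
  mul_mem' := fun {f g} hf hg =>
    ⟨(TailRule2.comp hf.1 hg.1 g.continuous : TailRule2 fun x => f (g x)),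
      (WAct.comp hf.2 hg.2 : WAct fun x => f (g x))⟩
  one_mem' := ⟨fun p => ⟨0, 0, 0, 0, Filter.Eventually.of_forall fun q => ⟨rfl, rfl⟩⟩,
    ⟨[], by simp, fun p _ => rfl⟩⟩
  inv_mem' := fun {g} hg => ⟨TailRule2.symm hg.1, WAct.symm hg.2⟩

theorem bad_HA : Bad HA := by
  constructor
  · intro μ hμ hinv
    let mY : MeasurableSpace YY := borel YY
    have bY : BorelSpace YY := ⟨rfl⟩
    have : IsProbabilityMeasure μ := hμ
    refine no_measure_A μ (fun f hf hfix => hinv f ⟨hf, [], by simp, fun p hp => hfix p hp⟩)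
      (fun s hs => hinv (actH s hs) ⟨tailRule2_act s, [s], by simpa using hs, fun p hp => rfl⟩)
  · exact no_pingpong_A HA fun g hg => hg.2

theorem fails_A {n : ℕ} (hn : 2 ≤ n) : ¬ SatisfiesDTA (brinThompson n) := by
  obtain ⟨L, π, j, hπ, hj, h1, h2, hT⟩ := exists_lift hn
  refine (Bad.transfer L π hπ j hj h1 h2 bad_HA).not_satisfiesDTA ?_
  rintro _ ⟨g, hg, rfl⟩
  exact brin_of_tail (L g) (hT g hg.1)

end Pool.Agent.W331.DT
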