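import Pool.Agent.W331.DT.AAct

set_option autoImplicit false

namespace Pool.Agent.W331.DT

open MeasureTheory Topology

/-- The periodic word. -/
def rep (v : List Q4) : Tape := fun i => v.getD (i % v.length) 0

theorem rep_unique {v : List Q4} (hv : v ≠ []) {z : Tape} (hz : z = app v z) : z = rep v := by
  have hl : 0 < v.length := List.length_pos_iff.2 hv
  funext i
  induction i using Nat.strong_induction_on with
  | _ i ih =>
    rcases lt_or_ge i v.length with h | h
    · rw [hz, app_apply_lt v z i h]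
      simp [rep, Nat.mod_eq_of_lt h, h]
    · obtain ⟨m, rfl⟩ := Nat.exists_eq_add_of_le h
      have h2 := ih m (by omega)
      have h3 : z (v.length + m) = z m := by
        conv_lhs => rw [hz]
        exact app_apply_add v z m
      rw [h3, h2]
      simp [rep]

theorem rep_eq {v : List Q4} (hv : v ≠ []) : app v (rep v) = rep v := by
  have hl : 0 < v.length := List.length_pos_iff.2 hv
  funext i
  rcases lt_or_ge i v.length with h | h
  · rw [app_apply_lt v _ i h]
    simp [rep, Nat.mod_eq_of_lt h, h]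
  · obtain ⟨m, rfl⟩ := Nat.exists_eq_add_of_le h
    rw [app_apply_add]
    simp [rep]

theorem red_cons {s : Q4} {x : Tape} (h : cons s x ∈ Red) : x ∈ Red ∧ x 0 ≠ s ∧ s ≠ 3 :=
  ⟨fun n => h (n + 1), fun h0 => (h 0).2 h0.symm, (h 0).1⟩

theorem cons_red {s : Q4} {x : Tape} (hx : x ∈ Red) (h0 : x 0 ≠ s) (hs : s ≠ 3) :
    cons s x ∈ Red := by
  intro n
  cases n with
  | zero => exact ⟨hs, fun h => h0 h.symm⟩
  | succ n => exact hx n

theorem red_app {w : List Q4} {x : Tape} (h : app w x ∈ Red) : x ∈ Red := by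
  induction w with
  | nil => exact h
  | cons s w ih => exact ih (red_cons h).1

/-- A family of points on which letters act by putting them in front. -/
def Fam (F : ℕ → Tape → YY) : Prop :=
  ∀ (s : Q4) (x : Tape) (t : ℕ), x 0 ≠ s → act s (F (t + 1) x) = F t (cons s x)

theorem fam_P1 (y : Tape) : Fam fun t x => P1 x t y := fun _ _ t h => act_P1_succ h t y
theorem fam_P2 (x : Tape) : Fam fun t y => P2 x y t := fun _ _ t h => act_P2_succ h t x
theorem fam_Q1 : Fam fun _ x => Q1 x := fun _ _ _ h => act_Q1 h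
theorem fam_Q2 : Fam fun _ x => Q2 x := fun _ _ _ h => act_Q2 h

theorem fam_word {F : ℕ → Tape → YY} (hF : Fam F) {w : List Q4} {x : Tape}
    (h : app w x ∈ Red) (t : ℕ) : wact w (F (t + w.length) x) = F t (app w x) := by
  induction w generalizing t with
  | nil => rfl
  | cons s w ih =>
    have h1 := red_cons h
    simp only [wact, app_cons, List.length_cons]
    have := ih h1.1 (t + 1)
    rw [show t + (w.length + 1) = t + 1 + w.length by omega, this]
    exact hF s _ t h1.2.1

/-- `g` acts on `EA` as the word `u v u⁻¹`, with attracting infinite word `u v v v ...`. -/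
structure Hyp (g : YY → YY) (u v : List Q4) : Prop where
  oku : ∀ s ∈ u, s ≠ 3
  okv : ∀ s ∈ v, s ≠ 3
  ne : v ≠ []
  red : app u (rep v) ∈ Red
  act : ∀ p ∈ EA, g p = wact (u ++ v ++ u.reverse) p

theorem hyp_start {g : YY → YY} {u v : List Q4} (h : Hyp g u v) {F : ℕ → Tape → YY}
    (hF : Fam F) (hE : ∀ t x, x ∈ Red → F t x ∈ EA) (t : ℕ) :
    g (F t (app u (rep v))) = wact u (wact v (F (t + u.length) (rep v))) := by
  rw [h.act _ (hE _ _ h.red), wact_append, wact_append, ← fam_word hF h.red,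
    wact_reverse h.oku]

theorem hyp_fam {g : YY → YY} {u v : List Q4} (h : Hyp g u v) {F : ℕ → Tape → YY}
    (hF : Fam F) (hE : ∀ t x, x ∈ Red → F t x ∈ EA) (t : ℕ) :
    g (F (t + v.length) (app u (rep v))) = F t (app u (rep v)) := by
  have hr : rep v ∈ Red := red_app h.red
  have hr' : app v (rep v) ∈ Red := by rw [rep_eq h.ne]; exact hr
  rw [hyp_start h hF hE, show t + v.length + u.length = (t + u.length) + v.length by omega,
    fam_word hF hr', rep_eq h.ne, fam_word hF h.red]

theorem P1_mem {x y : Tape} (hx : x ∈ Red) (hy : y ∈ Red) (t : ℕ) : P1 x t y ∈ EA :=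
  Or.inr ⟨x, hx, y, hy, t, Or.inl rfl⟩
theorem P2_mem {x y : Tape} (hx : x ∈ Red) (hy : y ∈ Red) (t : ℕ) : P2 x y t ∈ EA :=
  Or.inr ⟨x, hx, y, hy, t, Or.inr rfl⟩
theorem Q1_mem {x : Tape} (hx : x ∈ Red) : Q1 x ∈ EA := Or.inl ⟨x, hx, Or.inl rfl⟩
theorem Q2_mem {x : Tape} (hx : x ∈ Red) : Q2 x ∈ EA := Or.inl ⟨x, hx, Or.inr rfl⟩

theorem hyp_cross {g : YY → YY} {u v : List Q4} (h : Hyp g u v) {y : Tape} (hy : y ∈ Red)
    (hy0 : y 0 ≠ app u (rep v) 0) :
    g (P1 (app u (rep v)) (v.length - 1) y) = P2 (sh 1 (app u (rep v))) y 0 := by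
  have hs := hyp_start h (fam_P1 y) (fun t x hx => P1_mem hx hy t) (v.length - 1)
  rw [hs]
  have hr : rep v ∈ Red := red_app h.red
  have hr' : app v (rep v) ∈ Red := by rw [rep_eq h.ne]; exact hr
  have hred := h.red
  have hne := h.ne
  cases u with
  | nil =>
    cases hv : v with
    | nil => exact absurd hv hne
    | cons l v' =>
      rw [hv] at hr' hy0 hne
      simp only [wact, List.length_cons, Nat.add_sub_cancel, List.length_nil, Nat.add_zero,
        app_nil] at hy0 ⊢
      have h1 : app v' (rep (l :: v')) ∈ Red := (red_cons hr').1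
      have h2 := fam_word (fam_P1 y) h1 0
      simp only [Nat.zero_add] at h2
      rw [h2]
      have h3 : rep (l :: v') = cons l (app v' (rep (l :: v'))) := (rep_eq hne).symm
      have h4 : rep (l :: v') 0 = l := by rw [h3]; rfl
      rw [act_P1_cross (red_cons hr').2.1 (by rwa [h4] at hy0)]
      congr 1
      conv_rhs => rw [h3, sh_one_cons]
  | cons l u' =>
    have hl : 0 < v.length := List.length_pos_iff.2 h.ne
    simp only [wact, List.length_cons, app_cons, cons_zero, sh_one_cons] at hy0 ⊢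
    have h2 := fam_word (fam_P1 y) hr' u'.length
    rw [show v.length - 1 + (u'.length + 1) = u'.length + v.length by omega, h2, rep_eq h.ne]
    have h1 : app u' (rep v) ∈ Red := (red_cons hred).1
    have h5 := fam_word (fam_P1 y) h1 0
    simp only [Nat.zero_add] at h5
    rw [h5]
    exact act_P1_cross (red_cons hred).2.1 hy0

/-- Conjugation by the first letter. -/
theorem hyp_conj {g : YY → YY} {u v : List Q4} (h : Hyp g u v) :
    ∃ u' v', Hyp (fun p => Pool.Agent.W331.DT.act (app u (rep v) 0)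
      (g (Pool.Agent.W331.DT.act (app u (rep v) 0) p))) u' v' ∧
      app u' (rep v') = sh 1 (app u (rep v)) := by
  have hr : rep v ∈ Red := red_app h.red
  have hr' : app v (rep v) ∈ Red := by rw [rep_eq h.ne]; exact hr
  have hred := h.red
  have hne := h.ne
  have hact := h.act
  have hoku := h.oku
  have hokv := h.okv
  cases u with
  | nil =>
    cases hv : v with
    | nil => exact absurd hv hne
    | cons l v' =>
      rw [hv] at hr' hne hact hokv
      have h3 : rep (l :: v') = cons l (app v' (rep (l :: v'))) := (rep_eq hne).symm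
      have h4 : rep (l :: v') 0 = l := by rw [h3]; rfl
      have hl3 : l ≠ 3 := hokv l (by simp)
      have h5 : sh 1 (rep (l :: v')) = rep (v' ++ [l]) := by
        apply rep_unique (by simp)
        conv_lhs => rw [h3, sh_one_cons]
        rw [app_append]
        conv_rhs => rw [app_cons, app_nil]
        congr 1
        conv_lhs => rw [h3]
        congr 1
        conv_rhs => rw [h3, sh_one_cons]
      refine ⟨[], v' ++ [l], ⟨by simp, ?_, by simp, ?_, ?_⟩, ?_⟩
      · intro s hs
        rcases List.mem_append.1 hs with h | h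
        · exact hokv s (by simp [h])
        · rw [List.mem_singleton.1 h]; exact hl3
      · rw [app_nil, ← h5]
        rw [h3, sh_one_cons]
        exact (red_cons hr').1
      · intro p hp
        simp only [app_nil, h4]
        rw [hact _ (act_mem_EA hl3 hp)]
        simp only [List.nil_append, List.reverse_nil, List.append_nil, wact, wact_append]
        rw [act_act hl3]
      · rw [app_nil, app_nil, ← h5]
  | cons l u' =>
    have hl3 : l ≠ 3 := hoku l (by simp)
    refine ⟨u', v, ⟨fun s hs => hoku s (by simp [hs]), hokv, hne, (red_cons hred).1, ?_⟩, ?_⟩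
    · intro p hp
      simp only [app_cons, cons_zero]
      rw [hact _ (act_mem_EA hl3 hp)]
      simp only [List.reverse_cons, wact, wact_append, List.cons_append]
      rw [act_act hl3, act_act hl3]
    · rw [app_cons, sh_one_cons]

theorem zrun_apply_lt {t i : ℕ} (y : Tape) (h : i < t) : zrun t y i = 0 := by
  rw [zrun, app_apply_lt _ _ i (by simpa using h)]
  simp

theorem near_Q1 {x : Tape} {V : Set YY} (hV : V ∈ 𝓝 (Q1 x)) :
    ∃ T, ∀ t y, T ≤ t → P1 x t y ∈ V := by
  have h1 : Filter.Tendsto (fun z : Tape => ((cons 0 x, z) : YY)) (𝓝 fun _ => 0) (𝓝 (Q1 x)) :=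
    (Continuous.prodMk continuous_const continuous_id).tendsto' _ _ rfl
  obtain ⟨n, hn⟩ := exists_cylinder (P := fun z => ((cons 0 x, z) : YY) ∈ V) (h1 hV)
  exact ⟨n, fun t y ht => hn _ fun i hi => zrun_apply_lt y (by omega)⟩

theorem near_Q2 {x : Tape} {V : Set YY} (hV : V ∈ 𝓝 (Q2 x)) :
    ∃ T, ∀ t y, T ≤ t → P2 y x t ∈ V := by
  have h1 : Filter.Tendsto (fun z : Tape => ((cons 1 z, x) : YY)) (𝓝 fun _ => 0) (𝓝 (Q2 x)) :=
    (Continuous.prodMk (continuous_cons 1) continuous_const).tendsto' _ _ rfl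
  obtain ⟨n, hn⟩ := exists_cylinder (P := fun z => ((cons 1 z, x) : YY) ∈ V) (h1 hV)
  exact ⟨n, fun t y ht => hn _ fun i hi => zrun_apply_lt y (by omega)⟩

theorem spread {g : YY → YY} {u v : List Q4} (h : Hyp g u v) {F : ℕ → Tape → YY}
    (hF : Fam F) (hE : ∀ t x, x ∈ Red → F t x ∈ EA) {V : Set YY} (hV : ∀ p ∈ V, g p ∈ V)
    {T : ℕ} (hT : ∀ t, T ≤ t → F t (app u (rep v)) ∈ V) (t : ℕ) : F t (app u (rep v)) ∈ V := by
  have hl : 0 < v.length := List.length_pos_iff.2 h.ne
  have key : ∀ m t, T ≤ t + m * v.length → F t (app u (rep v)) ∈ V := by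
    intro m
    induction m with
    | zero => intro t ht; exact hT t (by simpa using ht)
    | succ m ih =>
      intro t ht
      rw [← hyp_fam h hF hE t]
      apply hV
      apply ih
      rw [Nat.succ_mul] at ht
      omega
  refine key T t ?_
  nlinarith

theorem main_aux : ∀ (n : ℕ) (g h : YY → YY) (V W : Set YY) (u v u' v' : List Q4),
    Hyp g u v → Hyp h u' v' → IsOpen V → IsOpen W → (∀ p ∈ V, g p ∈ V) → (∀ p ∈ W, h p ∈ W) →
    Q1 (app u (rep v)) ∈ V → Q2 (app u' (rep v')) ∈ W →
    (∀ i < n, app u (rep v) i = app u' (rep v') i) →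
    app u (rep v) n ≠ app u' (rep v') n → ∃ p, p ∈ V ∧ p ∈ W := by
  intro n
  induction n with
  | zero =>
    intro g h V W u v u' v' hg hh hV hW gV hW' hQ1 hQ2 _ hne
    obtain ⟨T1, hT1⟩ := near_Q1 (hV.mem_nhds hQ1)
    obtain ⟨T2, hT2⟩ := near_Q2 (hW.mem_nhds hQ2)
    have hb : app u' (rep v') ∈ Red := hh.red
    have ha : app u (rep v) ∈ Red := hg.red
    have hta : sh 1 (app u (rep v)) ∈ Red := by
      have := ha
      rw [← cons_sh (app u (rep v))] at this
      exact (red_cons this).1
    refine ⟨P2 (sh 1 (app u (rep v))) (app u' (rep v')) 0, ?_, ?_⟩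
    · rw [← hyp_cross hg hb fun hc => hne hc.symm]
      apply gV
      exact spread hg (fam_P1 _) (fun t x hx => P1_mem hx hb t) gV
        (fun t ht => hT1 t _ ht) _
    · exact spread hh (fam_P2 _) (fun t x hx => P2_mem hta hx t) hW'
        (fun t ht => hT2 t _ ht) 0
  | succ n ih =>
    intro g h V W u v u' v' hg hh hV hW gV hW' hQ1 hQ2 heq hne
    have h0 : app u (rep v) 0 = app u' (rep v') 0 := heq 0 (by omega)
    obtain ⟨u1, v1, hg1, ha1⟩ := hyp_conj hg
    obtain ⟨u2, v2, hh1, hb1⟩ := hyp_conj hh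
    rw [← h0] at hh1
    set l := app u (rep v) 0 with hl
    have hl3 : l ≠ 3 := (hg.red 0).1
    have hca : cons l (sh 1 (app u (rep v))) = app u (rep v) := cons_sh _
    have hcb : cons l (sh 1 (app u' (rep v'))) = app u' (rep v') := by rw [h0]; exact cons_sh _
    have hra : sh 1 (app u (rep v)) 0 ≠ l := (red_cons (by rw [hca]; exact hg.red)).2.1
    have hrb : sh 1 (app u' (rep v')) 0 ≠ l := (red_cons (by rw [hcb]; exact hh.red)).2.1
    obtain ⟨p, hp1, hp2⟩ := ih _ _ (act l ⁻¹' V) (act l ⁻¹' W) u1 v1 u2 v2 hg1 hh1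
      (hV.preimage (continuous_act l)) (hW.preimage (continuous_act l))
      (fun p hp => by
        show act l (act l (g (act l p))) ∈ V
        rw [act_act hl3]; exact gV _ hp)
      (fun p hp => by
        show act l (act l (h (act l p))) ∈ W
        rw [act_act hl3]; exact hW' _ hp)
      (by
        show act l (Q1 _) ∈ V
        rw [ha1, act_Q1 hra, hca]; exact hQ1)
      (by
        show act l (Q2 _) ∈ W
        rw [hb1, act_Q2 hrb, hcb]; exact hQ2)
      (by
        intro i hi
        rw [ha1, hb1]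
        have := heq (i + 1) (by omega)
        simpa [sh, Nat.add_comm] using this)
      (by
        rw [ha1, hb1]
        simpa [sh, Nat.add_comm] using hne)
    exact ⟨act l p, hp1, hp2⟩


/-! ### words -/

/-- Reduced words. -/
def RW (w : List Q4) : Prop := (∀ s ∈ w, s ≠ 3) ∧ List.IsChain (· ≠ ·) w

theorem exists_reduced (w : List Q4) (hw : ∀ s ∈ w, s ≠ 3) :
    ∃ w', RW w' ∧ ∀ p, wact w p = wact w' p := by
  induction w with
  | nil => exact ⟨[], ⟨by simp, List.isChain_nil⟩, fun p => rfl⟩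
  | cons s t ih =>
    obtain ⟨t', ht', hact⟩ := ih fun a ha => hw a (by simp [ha])
    have hs3 : s ≠ 3 := hw s (by simp)
    cases t' with
    | nil =>
      exact ⟨[s], ⟨by simpa using hs3, List.isChain_singleton s⟩, fun p => by simp [wact, hact]⟩
    | cons a t'' =>
      by_cases h : s = a
      · subst h
        refine ⟨t'', ⟨fun b hb => ht'.1 b (by simp [hb]), ht'.2.tail⟩, fun p => ?_⟩
        simp only [wact, hact]
        exact act_act hs3 _
      · refine ⟨s :: a :: t'', ⟨?_, ?_⟩, fun p => by simp [wact, hact]⟩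
        · intro b hb
          rcases List.mem_cons.1 hb with rfl | hb
          · exact hs3
          · exact ht'.1 b hb
        · exact List.isChain_cons_cons.2 ⟨h, ht'.2⟩

/-- Cyclic decomposition. -/
theorem exists_cyclic (w : List Q4) :
    ∃ u v : List Q4, w = u ++ v ++ u.reverse ∧
      (v = [] ∨ (∃ s, v = [s]) ∨ ∃ a b r, v = a :: (r ++ [b]) ∧ a ≠ b) := by
  induction w using List.bidirectionalRec with
  | nil => exact ⟨[], [], rfl, Or.inl rfl⟩
  | singleton a => exact ⟨[], [a], rfl, Or.inr (Or.inl ⟨a, rfl⟩)⟩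
  | cons_append a l b ih =>
    by_cases h : a = b
    · subst h
      obtain ⟨u, v, hl, hv⟩ := ih
      refine ⟨a :: u, v, ?_, hv⟩
      conv_lhs => rw [hl]
      simp
    · exact ⟨[], a :: (l ++ [b]), by simp, Or.inr (Or.inr ⟨a, b, l, rfl, h⟩)⟩

theorem red_of_chain {w : List Q4} (hw : RW w) {x : Tape} (hx : x ∈ Red)
    (h : ∀ b ∈ w.getLast?, b ≠ x 0) : app w x ∈ Red := by
  induction w with
  | nil => exact hx
  | cons s t ih =>
    have h1 : app t x ∈ Red := by
      apply ih ⟨fun a ha => hw.1 a (by simp [ha]), hw.2.tail⟩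
      intro b hb
      apply h b
      cases t with
      | nil => simp at hb
      | cons c t' => simpa [List.getLast?_cons_cons] using hb
    refine cons_red h1 ?_ (hw.1 s (by simp))
    cases t with
    | nil => simpa using (h s (by simp)).symm
    | cons c t' =>
      have := (List.isChain_cons_cons.1 hw.2).1
      simpa using this.symm

/-- Iterated concatenation. -/
def powW (v : List Q4) (n : ℕ) (x : Tape) : Tape := (app v)^[n] x

theorem powW_succ (v : List Q4) (n : ℕ) (x : Tape) : powW v (n + 1) x = app v (powW v n x) := by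
  simp only [powW, Function.iterate_succ_apply']

theorem powW_agree {v : List Q4} (hv : v ≠ []) (n : ℕ) (x : Tape) :
    ∀ i < n, powW v n x i = rep v i := by
  have hl : 0 < v.length := List.length_pos_iff.2 hv
  have key : ∀ n i, i < n * v.length → powW v n x i = rep v i := by
    intro n
    induction n with
    | zero => intro i hi; simp at hi
    | succ n ih =>
      intro i hi
      rw [powW_succ, ← rep_eq hv]
      rcases lt_or_ge i v.length with h | h
      · rw [app_apply_lt _ _ i h, app_apply_lt _ _ i h]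
      · obtain ⟨m, rfl⟩ := Nat.exists_eq_add_of_le h
        rw [app_apply_add, app_apply_add]
        apply ih
        rw [Nat.succ_mul] at hi
        omega
  intro i hi
  apply key
  nlinarith

/-- Data of a cyclically reduced word. -/
structure Cyc (u v : List Q4) : Prop where
  rw1 : RW (u ++ v ++ u.reverse)
  ends : ∃ a b r, v = a :: (r ++ [b]) ∧ a ≠ b

theorem Cyc.rev {u v : List Q4} (h : Cyc u v) : Cyc u v.reverse := by
  obtain ⟨h1, a, b, r, hv, hab⟩ := h
  refine ⟨?_, b, a, r.reverse, ?_, hab.symm⟩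
  · have h2 : (u ++ v ++ u.reverse).reverse = u ++ v.reverse ++ u.reverse := by simp
    refine ⟨?_, ?_⟩
    · intro s hs
      apply h1.1 s
      rw [← h2] at hs
      simpa using hs
    · rw [← h2, List.isChain_reverse]
      have h3 := h1.2
      refine h3.imp ?_
      intro a b hab
      exact hab.symm
  · rw [hv]; simp

theorem chain_left {u v : List Q4} (h : RW (u ++ v)) : RW u :=
  ⟨fun s hs => h.1 s (by simp [hs]), h.2.left_of_append⟩

theorem chain_right {u v : List Q4} (h : RW (u ++ v)) : RW v :=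
  ⟨fun s hs => h.1 s (by simp [hs]), h.2.right_of_append⟩

theorem Cyc.ne {u v : List Q4} (h : Cyc u v) : v ≠ [] := by
  obtain ⟨-, a, b, r, hv, -⟩ := h
  rw [hv]; simp

/-- Powers of `v` in front of a suitable word are reduced. -/
theorem Cyc.red_pow {u v : List Q4} (h : Cyc u v) {x : Tape} (hx : x ∈ Red)
    (hx0 : ∀ b ∈ v.getLast?, b ≠ x 0) (n : ℕ) : powW v n x ∈ Red := by
  have hv : RW v := chain_right (chain_left h.rw1)
  obtain ⟨a, b, r, hab, hne⟩ := h.ends
  induction n with
  | zero => exact hx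
  | succ n ih =>
    rw [powW_succ]
    refine red_of_chain hv ih ?_
    intro c hc
    cases n with
    | zero => exact hx0 c hc
    | succ m =>
      have h1 : powW v (m + 1) x 0 = a := by rw [powW_succ, hab]; rfl
      rw [h1]
      rw [hab] at hc
      have : c = b := by
        simpa [List.getLast?_cons, List.getLast?_append] using hc.symm
      rw [this]
      exact hne.symm

theorem Cyc.red_u {u v : List Q4} (h : Cyc u v) {x : Tape} (hx : app v x ∈ Red) :
    app u (app v x) ∈ Red := by
  have huv : RW (u ++ v) := chain_left h.rw1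
  have hu : RW u := chain_left huv
  obtain ⟨a, b, r, hab, hne⟩ := h.ends
  refine red_of_chain hu hx ?_
  intro c hc
  have h1 : app v x 0 = a := by rw [hab]; rfl
  rw [h1]
  have := huv.2
  rw [List.isChain_append] at this
  exact this.2.2 c hc a (by rw [hab]; simp)

theorem Cyc.red_rep {u v : List Q4} (h : Cyc u v) : app u (rep v) ∈ Red := by
  have hr : rep v ∈ Red := by
    have hv : RW v := chain_right (chain_left h.rw1)
    obtain ⟨a, b, r, hab, hne⟩ := h.ends
    -- choose any reduced word with first letter different from the last letter of `v`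
    have hstart : ∃ x ∈ Red, x 0 = a := by
      refine ⟨fun i => if i % 2 = 0 then a else b, ?_, by simp⟩
      intro n
      have ha3 : a ≠ 3 := hv.1 a (by rw [hab]; simp)
      have hb3 : b ≠ 3 := hv.1 b (by rw [hab]; simp)
      rcases Nat.mod_two_eq_zero_or_one n with h0 | h0
      · have : (n + 1) % 2 = 1 := by omega
        simp [h0, this, ha3, hne]
      · have : (n + 1) % 2 = 0 := by omega
        simp [h0, this, hb3, hne.symm]
    obtain ⟨x, hx, hxa⟩ := hstart
    intro n
    have h1 := Cyc.red_pow h hx (by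
      intro c hc
      rw [hab] at hc
      have : c = b := by
        simpa [List.getLast?_cons, List.getLast?_append] using hc.symm
      rw [this, hxa]; exact hne.symm) (n + 2) n
    rwa [powW_agree h.ne (n + 2) x n (by omega),
      powW_agree h.ne (n + 2) x (n + 1) (by omega)] at h1
  rw [← rep_eq h.ne]
  apply h.red_u
  rw [rep_eq h.ne]; exact hr

theorem Cyc.hyp {u v : List Q4} (h : Cyc u v) {g : YY → YY}
    (hg : ∀ p ∈ EA, g p = wact (u ++ v ++ u.reverse) p) : Hyp g u v where
  oku := (chain_left (chain_left h.rw1)).1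
  okv := (chain_right (chain_left h.rw1)).1
  ne := h.ne
  red := h.red_rep
  act := hg

/-- The third letter. -/
theorem exists_third {a b : Q4} (hab : a ≠ b) (ha : a ≠ 3) (hb : b ≠ 3) :
    ∃ x ∈ Red, x 0 ≠ a ∧ x 0 ≠ b := by
  obtain ⟨c, hca, hcb, hc3⟩ : ∃ c : Q4, c ≠ a ∧ c ≠ b ∧ c ≠ 3 := by
    revert a b; decide
  refine ⟨fun i => if i % 2 = 0 then c else a, ?_, by simpa using hca, by simpa using hcb⟩
  intro n
  rcases Nat.mod_two_eq_zero_or_one n with h0 | h0
  · have : (n + 1) % 2 = 1 := by omega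
    simp [h0, this, hc3, hca]
  · have : (n + 1) % 2 = 0 := by omega
    simp [h0, this, ha, hca.symm]

/-- A player acting by a cyclically reduced word: the attracting point of `g` or of `g⁻¹` lies
in the respective forward invariant set. -/
theorem wlog_step {g : YY ≃ₜ YY} {U V : Set YY} (hp : PP g U V) {u v : List Q4} (h : Cyc u v)
    (hg : ∀ p ∈ EA, g p = wact (u ++ v ++ u.reverse) p) (Q : Tape → YY)
    (hQ : Fam fun _ x => Q x) (hQE : ∀ x ∈ Red, Q x ∈ EA) (hQc : Continuous Q) :
    ∃ (k : YY ≃ₜ YY) (S : Set YY) (v' : List Q4), IsOpen S ∧ (∀ p ∈ S, k p ∈ S) ∧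
      (∀ p ∈ S, p ∈ U ∨ p ∈ V) ∧ (∀ p, k p = p → p ∈ U ∨ p ∈ V) ∧ Hyp k u v' ∧
      Q (app u (rep v')) ∈ S := by
  have hh : Hyp g u v := h.hyp hg
  have hoku := hh.oku
  have hokv := hh.okv
  have hokr : ∀ s ∈ (u ++ v ++ u.reverse).reverse, s ≠ 3 := fun s hs => h.rw1.1 s (by simpa using hs)
  have hginv : ∀ p ∈ EA, g⁻¹ p = wact (u ++ v.reverse ++ u.reverse) p := by
    intro p hp'
    have h2 : (u ++ v ++ u.reverse).reverse = u ++ v.reverse ++ u.reverse := by simp
    rw [← h2]
    have h3 : g (wact (u ++ v ++ u.reverse).reverse p) = p := by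
      rw [hg _ (wact_mem_EA hokr hp')]
      have := wact_reverse hokr p
      rwa [List.reverse_reverse] at this
    rw [← h3]
    have h4 : g⁻¹ (g (wact (u ++ v ++ u.reverse).reverse p))
        = wact (u ++ v ++ u.reverse).reverse p := g.symm_apply_apply _
    rw [h4, h3]
  have hh' : Hyp (g⁻¹ : YY ≃ₜ YY) u v.reverse := h.rev.hyp hginv
  have hfix : ∀ {k : YY ≃ₜ YY} {w : List Q4}, Hyp k u w →
      k (Q (app u (rep w))) = Q (app u (rep w)) := fun hk => hyp_fam hk hQ (fun _ x hx => hQE x hx) 0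
  rcases hp.fixed (hfix hh) with hU | hV
  swap
  · exact ⟨g, V, v, hp.openV, fun p hp' => hp.fwd hp', fun p hp' => Or.inr hp',
      fun p hp' => hp.fixed hp', hh, hV⟩
  refine ⟨g⁻¹, U, v.reverse, hp.openU, fun p hp' => hp.symm.fwd hp', fun p hp' => Or.inl hp',
      fun p hp' => (hp.symm.fixed hp').symm, hh', ?_⟩
  rcases hp.fixed (x := Q (app u (rep v.reverse))) (by
    have h5 := hfix hh'
    have h6 := congrArg g h5
    have h7 : g (g⁻¹ (Q (app u (rep v.reverse)))) = Q (app u (rep v.reverse)) :=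
      g.apply_symm_apply _
    rw [h7] at h6
    exact h6.symm) with hU' | hV'
  · exact hU'
  exfalso
  obtain ⟨a, b, r, hab, hne⟩ := h.ends
  have ha3 : a ≠ 3 := hokv a (by rw [hab]; simp)
  have hb3 : b ≠ 3 := hokv b (by rw [hab]; simp)
  obtain ⟨x, hx, hxa, hxb⟩ := exists_third hne ha3 hb3
  have hlast : ∀ c ∈ v.getLast?, c ≠ x 0 := by
    intro c hc
    rw [hab] at hc
    have : c = b := by simpa [List.getLast?_cons, List.getLast?_append] using hc.symm
    rw [this]; exact hxb.symm
  have hlast' : ∀ c ∈ v.reverse.getLast?, c ≠ x 0 := by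
    intro c hc
    rw [hab, List.getLast?_reverse] at hc
    have : c = a := by simpa using hc.symm
    rw [this]; exact hxa.symm
  set q := wact u (Q x) with hq
  -- powers
  have hpow : ∀ (k : YY ≃ₜ YY) (w : List Q4), Cyc u w → (∀ c ∈ w.getLast?, c ≠ x 0) →
      (∀ p ∈ EA, k p = wact (u ++ w ++ u.reverse) p) → ∀ n, (k ^ n) q = wact u (Q (powW w n x)) := by
    intro k w hw hl hk n
    induction n with
    | zero => rfl
    | succ n ih =>
      rw [pow_succ']
      show k ((k ^ n) q) = _
      have hmem : powW w n x ∈ Red := hw.red_pow hx hl n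
      rw [ih, hk _ (wact_mem_EA hoku (hQE _ hmem)), wact_append, wact_append,
        wact_reverse hoku]
      congr 1
      have h8 : wact w (Q (powW w n x)) = Q (app w (powW w n x)) :=
        fam_word hQ (w := w) (x := powW w n x)
          (by rw [← powW_succ]; exact hw.red_pow hx hl (n + 1)) 0
      rw [h8, powW_succ]
  have hpow' : ∀ (k : YY ≃ₜ YY) (w : List Q4), Cyc u w → (∀ c ∈ w.getLast?, c ≠ x 0) →
      (∀ p ∈ EA, k p = wact (u ++ w ++ u.reverse) p) → ∀ n,
      (k ^ (n + 1)) q = Q (app u (powW w (n + 1) x)) := by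
    intro k w hw hl hk n
    rw [hpow k w hw hl hk]
    have h8 := fam_word hQ (w := u) (x := powW w (n + 1) x)
      (by rw [powW_succ]; exact hw.red_u (by rw [← powW_succ]; exact hw.red_pow hx hl (n + 1))) 0
    simpa using h8
  have hnear : ∀ (w : List Q4), w ≠ [] → ∀ S : Set YY, IsOpen S → Q (app u (rep w)) ∈ S →
      ∃ T, ∀ n, T ≤ n → Q (app u (powW w n x)) ∈ S := by
    intro w hw S hS hmem
    have h9 : Filter.Tendsto (fun z : Tape => Q (app u z)) (𝓝 (rep w)) (𝓝 (Q (app u (rep w)))) :=
      (hQc.comp (continuous_app u)).tendsto _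
    obtain ⟨m, hm⟩ := exists_cylinder (P := fun z => Q (app u z) ∈ S) (h9 (hS.mem_nhds hmem))
    exact ⟨m, fun n hn => hm _ fun i hi => powW_agree hw n x i (by omega)⟩
  obtain ⟨T1, hT1⟩ := hnear v h.ne U hp.openU hU
  obtain ⟨T2, hT2⟩ := hnear v.reverse h.rev.ne V hp.openV hV'
  have h10 : (g ^ (T1 + 1)) q ∈ U := by
    rw [hpow' g v h hlast hg]
    exact hT1 _ (by omega)
  have h11 : (g⁻¹ ^ (T1 + 1)) ((g ^ (T1 + 1)) q) ∈ U := hp.symm.fwd_pow h10 _
  have h12 : (g⁻¹ ^ (T1 + 1)) ((g ^ (T1 + 1)) q) = q := by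
    rw [inv_pow]
    exact (g ^ (T1 + 1)).symm_apply_apply _
  rw [h12] at h11
  have h13 : (g⁻¹ ^ (T2 + 1)) q ∈ U := hp.symm.fwd_pow h11 _
  rw [hpow' g⁻¹ v.reverse h.rev hlast' hginv] at h13
  exact hp.disj _ h13 (hT2 _ (by omega))

theorem continuous_Q1 : Continuous Q1 :=
  Continuous.prodMk (continuous_cons 0) continuous_const

theorem continuous_Q2 : Continuous Q2 :=
  Continuous.prodMk continuous_const continuous_id

/-- A player of finite order on `EA` is impossible. -/
theorem finite_A {g k : YY ≃ₜ YY} {U₁ V₁ U₂ V₂ : Set YY} (hp1 : PP g U₁ V₁) (hp2 : PP k U₂ V₂)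
    (hdis : ∀ x, (x ∈ U₁ ∨ x ∈ V₁) → (x ∈ U₂ ∨ x ∈ V₂) → False)
    (hg : ∀ p ∈ EA, (g ^ 2) p = p) (hk : WAct k) : False := by
  obtain ⟨w, hw, hkw⟩ := hk
  obtain ⟨x, hx, -, -⟩ := exists_third (a := 0) (b := 1) (by decide) (by decide) (by decide)
  have hE : Q1 x ∈ EA := Q1_mem hx
  have h1 := hp1.periodic 2 (by norm_num) (hg _ hE)
  have h2 : Q1 x ∉ U₂ := fun h => hdis _ h1 (Or.inl h)
  have h3 := hp2.map _ h2
  have h4 : k (Q1 x) ∈ EA := by rw [hkw _ hE]; exact wact_mem_EA hw hE
  exact hdis _ (hp1.periodic 2 (by norm_num) (hg _ h4)) (Or.inr h3)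

theorem wact_dichotomy {g : YY ≃ₜ YY} (hg : WAct g) :
    (∀ p ∈ EA, (g ^ 2) p = p) ∨
      ∃ u v, Cyc u v ∧ ∀ p ∈ EA, g p = wact (u ++ v ++ u.reverse) p := by
  obtain ⟨w, hw, hgw⟩ := hg
  obtain ⟨w', hw', hww⟩ := exists_reduced w hw
  have hgw' : ∀ p ∈ EA, g p = wact w' p := fun p hp => by rw [hgw p hp, hww]
  obtain ⟨u, v, huv, hv⟩ := exists_cyclic w'
  have hE : ∀ p ∈ EA, g p ∈ EA := fun p hp => by rw [hgw p hp]; exact wact_mem_EA hw hp
  rcases hv with hv | ⟨s, hv⟩ | hv
  · left
    intro p hp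
    rw [pow_two]
    show g (g p) = p
    have hur : ∀ s ∈ u.reverse, s ≠ 3 := fun s hs => hw'.1 s (by rw [huv]; simp at hs; simp [hs])
    have hid : ∀ p, wact w' p = p := by
      intro p
      rw [huv, hv, List.append_nil, wact_append]
      have := wact_reverse hur p
      rwa [List.reverse_reverse] at this
    rw [hgw' p hp, hid, hgw' p hp, hid]
  · left
    intro p hp
    rw [pow_two]
    show g (g p) = p
    have hu : ∀ s ∈ u, s ≠ 3 := fun s hs => hw'.1 s (by rw [huv]; simp [hs])
    have hur : ∀ s ∈ u.reverse, s ≠ 3 := fun s hs => hu s (by simpa using hs)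
    have hs3 : s ≠ 3 := hw'.1 s (by rw [huv, hv]; simp)
    rw [hgw' _ (hE p hp), hgw' p hp, huv, hv]
    simp only [wact_append, wact]
    rw [wact_reverse hu, act_act hs3]
    have := wact_reverse hur p
    rwa [List.reverse_reverse] at this
  · right
    exact ⟨u, v, ⟨by rw [← huv]; exact hw', hv⟩, fun p hp => by rw [← huv]; exact hgw' p hp⟩

theorem no_pingpong_A (H : Subgroup (YY ≃ₜ YY)) (hH : ∀ g ∈ H, WAct g) : ¬ HasPingPong H := by
  intro hpp
  obtain ⟨g, hg, k, hk, U₁, U₂, V₁, V₂, hp1, hp2, hdis⟩ := hpp.elim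
  rcases wact_dichotomy (hH g hg) with h2 | ⟨u, v, hc, hgw⟩
  · exact finite_A hp1 hp2 hdis h2 (hH k hk)
  rcases wact_dichotomy (hH k hk) with h2 | ⟨u', v', hc', hkw⟩
  · exact finite_A hp2 hp1 (fun x a b => hdis x b a) h2 (hH g hg)
  obtain ⟨g1, S, w, hS, hgS, hSsub, hfix, hyp1, hQ1⟩ :=
    wlog_step hp1 hc hgw Q1 fam_Q1 (fun x hx => Q1_mem hx) continuous_Q1
  obtain ⟨k1, W, w', hW, hkW, hWsub, hfix', hyp2, hQ2⟩ :=
    wlog_step hp2 hc' hkw Q2 fam_Q2 (fun x hx => Q2_mem hx) continuous_Q2
  have hne : app u (rep w) ≠ app u' (rep w') := by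
    intro heq
    have h1 : k1 (Q1 (app u' (rep w'))) = Q1 (app u' (rep w')) :=
      hyp_fam hyp2 fam_Q1 (fun _ x hx => Q1_mem hx) 0
    have h2 := hfix' _ h1
    rw [← heq] at h2
    exact hdis _ (hSsub _ hQ1) h2
  classical
  have hex : ∃ n, app u (rep w) n ≠ app u' (rep w') n := by
    by_contra hcon
    push Not at hcon
    exact hne (funext hcon)
  obtain ⟨p, hp, hp'⟩ := main_aux (Nat.find hex) g1 k1 S W u w u' w' hyp1 hyp2 hS hW hgS hkW
    hQ1 hQ2 (fun i hi => by
      have := Nat.find_min hex hi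
      push Not at this
      exact this) (Nat.find_spec hex)
  exact hdis p (hSsub p hp) (hWsub p hp')

end Pool.Agent.W331.DT
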