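import Pool.Agent.W331.DT.Basic

set_option autoImplicit false

namespace Pool.Agent.W331.DT

open MeasureTheory Topology

/-- A marker code: each datum `d : D` is written as a word `cell d 0 ... cell d (L-1)`, and
two such words occurring in an infinite word never overlap properly. -/
structure Code (D A : Type*) where
  L : ℕ
  hL : 0 < L
  cell : D → ℕ → A
  inj : ∀ d e : D, (∀ i < L, cell d i = cell e i) → d = e
  nov : ∀ (d e : D) (s : ℕ), 0 < s → s < L → ∃ i, i + s < L ∧ cell d (i + s) ≠ cell e i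

namespace Code

variable {D A : Type*} (C : Code D A)

/-- The word `w` has a cell with datum `d` at position `p`. -/
def IsCell (w : ℕ → A) (p : ℕ) (d : D) : Prop := ∀ i < C.L, w (p + i) = C.cell d i

/-- Write the cell of `d` in front of `w`. -/
def put (d : D) (w : ℕ → A) : ℕ → A := fun i => if i < C.L then C.cell d i else w (i - C.L)

/-- The word consisting of the cells of `s 0, s 1, ...`. -/
def cells (s : ℕ → D) : ℕ → A := fun i => C.cell (s (i / C.L)) (i % C.L)

open Classical in
/-- The sliding block map: every cell directly followed by another cell gets its datum `d`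
changed to `d + N e`, `e` the datum of the next cell. -/
noncomputable def phi [AddCommGroup D] (N : D →+ D) (w : ℕ → A) : ℕ → A := fun i =>
  if h : ∃ p d e, p ≤ i ∧ i < p + C.L ∧ C.IsCell w p d ∧ C.IsCell w (p + C.L) e then
    C.cell (h.choose_spec.choose + N h.choose_spec.choose_spec.choose) (i - h.choose)
  else w i

/-- No cell of `w` straddles the cut before position `n`. -/
def Cut (w : ℕ → A) (n : ℕ) : Prop := ∀ p d, C.IsCell w p d → p < n → p + C.L ≤ n

open Classical in
/-- The map on the distinguished component. -/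
noncomputable def hmap [AddCommGroup D] (N : D →+ D) (w : ℕ → A) : ℕ → A :=
  if h : ∃ d, C.IsCell w 0 d then
    if h.choose = 0 then C.put 0 (C.phi N (sh C.L w))
    else if N h.choose ≠ 0 then C.put (N h.choose) (C.phi N w)
    else if C.IsCell (C.phi N w) 0 0 then sh C.L (C.phi N w)
    else C.phi N w
  else C.phi N w

/-- The map on the whole space `ι × A^ℕ`. -/
noncomputable def hfun {ι : Type*} [AddCommGroup D] [DecidableEq ι] (i0 : ι) (N : D →+ D)
    (x : ι × (ℕ → A)) : ι × (ℕ → A) :=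
  if x.1 = i0 then (x.1, C.hmap N x.2) else (x.1, C.phi N x.2)

end Code

/-- Tail rule: near each point, some shift of `f y` equals `ψ` of some shift of `y`. -/
def TailRule {ι A : Type*} [TopologicalSpace ι] [TopologicalSpace A]
    (f : ι × (ℕ → A) → ι × (ℕ → A)) (ψ : (ℕ → A) → (ℕ → A)) : Prop :=
  ∀ x, ∃ m n : ℕ, ∀ᶠ y in 𝓝 x, sh m (f y).2 = ψ (sh n y.2)

/-- The data: `F_2^3`. -/
abbrev D3 : Type := Fin 3 → ZMod 2

/-- The pattern `1 1 0 d0 0 d1 0 d2 0`. -/
def pat (d : D3) (i : ℕ) : Bool :=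
  match i with
  | 0 => true
  | 1 => true
  | 3 => d 0 = 1
  | 5 => d 1 = 1
  | 7 => d 2 = 1
  | _ => false

theorem pat_inj : ∀ d e : D3, (∀ i < 9, pat d i = pat e i) → d = e := by
  decide

theorem pat_nov : ∀ (d e : D3) (s : ℕ), 0 < s → s < 9 →
    ∃ i, i + s < 9 ∧ pat d (i + s) ≠ pat e i := by
  intro d e s h0 h9
  interval_cases s
  · exact ⟨1, by norm_num, by simp [pat]⟩
  · exact ⟨0, by norm_num, by simp [pat]⟩
  · exact ⟨1, by norm_num, by simp [pat]⟩
  · exact ⟨0, by norm_num, by simp [pat]⟩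
  · exact ⟨1, by norm_num, by simp [pat]⟩
  · exact ⟨0, by norm_num, by simp [pat]⟩
  · exact ⟨1, by norm_num, by simp [pat]⟩
  · exact ⟨0, by norm_num, by simp [pat]⟩

/-- The code over an alphabet with two distinct letters. -/
def code3 {A : Type*} (a0 a1 : A) (h : a0 ≠ a1) : Code D3 A where
  L := 9
  hL := by norm_num
  cell := fun d i => if pat d i then a1 else a0
  inj := by
    intro d e hde
    apply pat_inj
    intro i hi
    have := hde i hi
    by_cases h1 : pat d i <;> by_cases h2 : pat e i <;> simp_all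
  nov := by
    intro d e s h0 h9
    obtain ⟨i, hi, hne⟩ := pat_nov d e s h0 h9
    refine ⟨i, hi, ?_⟩
    by_cases h1 : pat d (i + s) <;> by_cases h2 : pat e i <;> simp_all [h.symm]

/-- The field `F_2((t))`. -/
abbrev K : Type := LaurentSeries (ZMod 2)

/-- Coefficient vector. -/
def cv (v : Fin 3 → K) (n : ℤ) : D3 := fun i => (v i).coeff n

/-- `m` is the order of the vector `v`. -/
def IsOrd (v : Fin 3 → K) (m : ℤ) : Prop := cv v m ≠ 0 ∧ ∀ n < m, cv v n = 0

open Classical in
/-- The coefficient sequence starting at the order. -/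
noncomputable def nrm (v : Fin 3 → K) : ℕ → D3 :=
  if h : ∃ m, IsOrd v m then fun n => cv v (h.choose + n) else 0

/-- Action of a square-zero additive map on normalized sequences. -/
def phs (N : D3 →+ D3) (s : ℕ → D3) : ℕ → D3 := fun n => s n + N (s (n + 1))

open Classical in
noncomputable def hs (N : D3 →+ D3) (s : ℕ → D3) : ℕ → D3 :=
  if N (s 0) ≠ 0 then cons (N (s 0)) (phs N s)
  else if phs N s 0 ≠ 0 then phs N s
  else sh 1 (phs N s)

/-- The element `T = t⁻¹`. -/
noncomputable def TT : K := HahnSeries.single (-1 : ℤ) (1 : ZMod 2)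

/-- The additive map of a matrix over `F_2`. -/
def Nmap (N : Matrix (Fin 3) (Fin 3) (ZMod 2)) : D3 →+ D3 where
  toFun := fun d => N.mulVec d
  map_zero' := by simp
  map_add' := by intro x y; simp [Matrix.mulVec_add]

/-- The operator `1 + T N`. -/
noncomputable def TN (N : Matrix (Fin 3) (Fin 3) (ZMod 2)) (v : Fin 3 → K) : Fin 3 → K :=
  v + TT • (N.map (algebraMap (ZMod 2) K)).mulVec v

/-- The four square-zero matrices used. -/
def N12 : Matrix (Fin 3) (Fin 3) (ZMod 2) := !![0, 1, 0; 0, 0, 0; 0, 0, 0]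
def N21 : Matrix (Fin 3) (Fin 3) (ZMod 2) := !![0, 0, 0; 1, 0, 0; 0, 0, 0]
def NJ : Matrix (Fin 3) (Fin 3) (ZMod 2) := !![1, 1, 0; 1, 1, 0; 0, 0, 0]
def N13 : Matrix (Fin 3) (Fin 3) (ZMod 2) := !![0, 0, 1; 0, 0, 0; 0, 0, 0]

/-- The set of vectors `(x, z)`. -/
def vec3 (x : Fin 2 → K) (z : K) : Fin 3 → K := ![x 0, x 1, z]

/-- Polynomials in `T`: Laurent series without terms of positive degree in `t`. -/
def Pol (x : K) : Prop := ∀ n : ℤ, 0 < n → x.coeff n = 0

/-- `x` has order at least `N`. -/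
def Low (N : ℤ) (x : K) : Prop := ∀ n < N, x.coeff n = 0

/-- The embedded points. -/
noncomputable def ev {ι A : Type*} (C : Code D3 A) (i0 : ι) (v : Fin 3 → K) : ι × (ℕ → A) :=
  (i0, C.cells (nrm v))

/-- The set `E`. -/
def EB {ι A : Type*} (C : Code D3 A) (i0 : ι) : Set (ι × (ℕ → A)) :=
  {x | ∃ s : ℕ → D3, s 0 ≠ 0 ∧ x = (i0, C.cells s)}

/-- `g` acts on `E` by an affine map. -/
def Aff {ι A : Type*} (C : Code D3 A) (i0 : ι) (g : ι × (ℕ → A) → ι × (ℕ → A)) : Prop :=
  ∃ (M : Matrix (Fin 2) (Fin 2) K) (b : Fin 2 → K), M.det = 1 ∧ (∀ i j, Pol (M i j)) ∧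
    ∀ x z, vec3 x z ≠ 0 → g (ev C i0 (vec3 x z)) = ev C i0 (vec3 (M.mulVec x + z • b) z)

end Pool.Agent.W331.DT
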