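import Pool.Agent.W331.DT.BDefs
import Pool.Agent.W331.DT.Transfer

set_option autoImplicit false

namespace Pool.Agent.W331.DT

open MeasureTheory Topology

namespace Code

section
variable {D A : Type*} [AddCommGroup D] (C : Code D A) (N : D →+ D)

/- ===== TASK DT-B1: file BCode.lean ===== -/

theorem isCell_unique {w : ℕ → A} {p : ℕ} {d e : D} (h1 : C.IsCell w p d)
    (h2 : C.IsCell w p e) : d = e := sorry

theorem isCell_disjoint {w : ℕ → A} {p q : ℕ} {d e : D} (h1 : C.IsCell w p d)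
    (h2 : C.IsCell w q e) (hpq : p < q) : p + C.L ≤ q := sorry

theorem phi_in {w : ℕ → A} {p i : ℕ} {d e : D} (h1 : C.IsCell w p d)
    (h2 : C.IsCell w (p + C.L) e) (hi : p ≤ i) (hi' : i < p + C.L) :
    C.phi N w i = C.cell (d + N e) (i - p) := sorry

theorem phi_out {w : ℕ → A} {i : ℕ}
    (h : ∀ p d e, p ≤ i → i < p + C.L → C.IsCell w p d → ¬ C.IsCell w (p + C.L) e) :
    C.phi N w i = w i := sorry

theorem phi_cell {w : ℕ → A} {p : ℕ} {d e : D} (h1 : C.IsCell w p d)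
    (h2 : C.IsCell w (p + C.L) e) : C.IsCell (C.phi N w) p (d + N e) := sorry

theorem phi_cell' {w : ℕ → A} {p : ℕ} {d : D} (h1 : C.IsCell w p d)
    (h2 : ∀ e, ¬ C.IsCell w (p + C.L) e) : C.IsCell (C.phi N w) p d := sorry

theorem phi_isCell_iff {w : ℕ → A} {p : ℕ} :
    (∃ d, C.IsCell (C.phi N w) p d) ↔ ∃ d, C.IsCell w p d := sorry

theorem phi_phi (h2 : ∀ d : D, d + d = 0) (hN : ∀ d, N (N d) = 0) (w : ℕ → A) :
    C.phi N (C.phi N w) = w := sorry

theorem phi_sh {w : ℕ → A} {n : ℕ} (h : C.Cut w n) :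
    sh n (C.phi N w) = C.phi N (sh n w) := sorry

theorem phi_congr {w z : ℕ → A} {i : ℕ} (h : ∀ j < i + 2 * C.L, w j = z j) :
    C.phi N w i = C.phi N z i := sorry

theorem continuous_phi [TopologicalSpace A] [DiscreteTopology A] : Continuous (C.phi N) := sorry

/- ===== TASK DT-B2: file BHmap.lean (imports BCode) ===== -/

theorem hmap_hmap (h2 : ∀ d : D, d + d = 0) (hN : ∀ d, N (N d) = 0) (w : ℕ → A) :
    C.hmap N (C.hmap N w) = w := sorry

theorem continuous_hmap [TopologicalSpace A] [DiscreteTopology A] : Continuous (C.hmap N) := sorry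

theorem hfun_hfun {ι : Type*} [DecidableEq ι] (i0 : ι) (h2 : ∀ d : D, d + d = 0)
    (hN : ∀ d, N (N d) = 0) (x : ι × (ℕ → A)) :
    C.hfun i0 N (C.hfun i0 N x) = x := sorry

theorem continuous_hfun {ι : Type*} [DecidableEq ι] [TopologicalSpace ι] [DiscreteTopology ι]
    [TopologicalSpace A] [DiscreteTopology A] (i0 : ι) : Continuous (C.hfun i0 N) := sorry

theorem tailRule_hfun {ι : Type*} [DecidableEq ι] [TopologicalSpace ι] [DiscreteTopology ι]
    [TopologicalSpace A] [DiscreteTopology A] (i0 : ι) :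
    TailRule (C.hfun i0 N) (C.phi N) := sorry

theorem hfun_cells {ι A : Type*} [DecidableEq ι] (C : Code D3 A) (i0 : ι) (N : D3 →+ D3)
    (s : ℕ → D3) (hs0 : s 0 ≠ 0) :
    C.hfun i0 N (i0, C.cells s) = (i0, C.cells (hs N s)) := sorry

/-- The homeomorphism. -/
noncomputable def HN {ι : Type*} [DecidableEq ι] [TopologicalSpace ι] [DiscreteTopology ι]
    [TopologicalSpace A] [DiscreteTopology A] (i0 : ι) (h2 : ∀ d : D, d + d = 0)
    (hN : ∀ d, N (N d) = 0) : (ι × (ℕ → A)) ≃ₜ (ι × (ℕ → A)) where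
  toFun := C.hfun i0 N
  invFun := C.hfun i0 N
  left_inv := C.hfun_hfun N i0 h2 hN
  right_inv := C.hfun_hfun N i0 h2 hN
  continuous_toFun := C.continuous_hfun N i0
  continuous_invFun := C.continuous_hfun N i0

/- ===== TASK DT-B3: file BNormal.lean (imports BCode) ===== -/

theorem tailRule_conj {ι : Type*} [TopologicalSpace ι] [DiscreteTopology ι]
    [TopologicalSpace A] [DiscreteTopology A]
    (h2 : ∀ d : D, d + d = 0) (hN : ∀ d, N (N d) = 0)
    (h v : ι × (ℕ → A) → ι × (ℕ → A)) (hc : Continuous h) (vc : Continuous v)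
    (hh : TailRule h (C.phi N)) (hv : TailRule v id) :
    TailRule (fun x => h (v (h x))) id := sorry

end

end Code

/- ===== TASK DT-V1: file TailV.lean ===== -/

section
variable {ι A : Type*} [TopologicalSpace ι] [DiscreteTopology ι]
    [TopologicalSpace A] [DiscreteTopology A]

theorem TailRule.comp_id {f g : ι × (ℕ → A) → ι × (ℕ → A)} (hf : TailRule f id)
    (hg : TailRule g id) (gc : Continuous g) : TailRule (fun x => f (g x)) id := sorry

theorem TailRule.inv_id {f : (ι × (ℕ → A)) ≃ₜ (ι × (ℕ → A))} (hf : TailRule f id) :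
    TailRule f.symm id := sorry

theorem TailRule.cover [Finite ι] [Finite A] {f : (ι × (ℕ → A)) → (ι × (ℕ → A))}
    (fc : Continuous f) (hf : TailRule f id) :
    ∃ P : Set (ι × List A), P.Finite ∧
      (∀ x : ι × (ℕ → A), ∃ u ∈ P, ∃ w : ℕ → A, x = (u.1, app u.2 w)) ∧
      ∀ u ∈ P, ∃ v : ι × List A, ∀ w : ℕ → A, f (u.1, app u.2 w) = (v.1, app v.2 w) := sorry

theorem TailRule.of_cover {f : (ι × (ℕ → A)) → (ι × (ℕ → A))}
    (hf : ∃ P : Set (ι × List A),
      (∀ x : ι × (ℕ → A), ∃ u ∈ P, ∃ w : ℕ → A, x = (u.1, app u.2 w)) ∧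
      ∀ u ∈ P, ∃ v : ι × List A, ∀ w : ℕ → A, f (u.1, app u.2 w) = (v.1, app v.2 w)) :
    TailRule f id := sorry

/-- The swap of two disjoint cones. -/
theorem exists_swap {i j : ι} {u v : List A}
    (h : ∀ w z : ℕ → A, (i, app u w) ≠ (j, app v z)) :
    ∃ f : (ι × (ℕ → A)) ≃ₜ (ι × (ℕ → A)), TailRule f id ∧
      (∀ w, f (i, app u w) = (j, app v w)) ∧ (∀ w, f (j, app v w) = (i, app u w)) ∧
      ∀ x, (∀ w, x ≠ (i, app u w)) → (∀ w, x ≠ (j, app v w)) → f x = x := sorry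

end

/- ===== TASK DT-B4: file BEval.lean ===== -/

theorem exists_isOrd {v : Fin 3 → K} (hv : v ≠ 0) : ∃ m, IsOrd v m := sorry

theorem IsOrd.unique {v : Fin 3 → K} {m n : ℤ} (h1 : IsOrd v m) (h2 : IsOrd v n) : m = n := sorry

theorem nrm_eq {v : Fin 3 → K} {m : ℤ} (h : IsOrd v m) : nrm v = fun n : ℕ => cv v (m + n) := sorry

theorem nrm_zero_ne {v : Fin 3 → K} (hv : v ≠ 0) : nrm v 0 ≠ 0 := sorry

theorem nrm_TN (N : Matrix (Fin 3) (Fin 3) (ZMod 2)) (hN : N * N = 0) {v : Fin 3 → K}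
    (hv : v ≠ 0) : nrm (TN N v) = hs (Nmap N) (nrm v) := sorry

theorem nrm_single_smul (k : ℤ) (v : Fin 3 → K) :
    nrm ((HahnSeries.single k (1 : ZMod 2) : K) • v) = nrm v := sorry

theorem ev_near {ι A : Type*} [TopologicalSpace ι] [TopologicalSpace A] (C : Code D3 A) (i0 : ι)
    {v : Fin 3 → K} (hv : v ≠ 0) {U : Set (ι × (ℕ → A))} (hU : U ∈ 𝓝 (ev C i0 v)) :
    ∃ n : ℤ, ∀ w : Fin 3 → K, (∀ i, Low n (w i - v i)) → ev C i0 w ∈ U := sorry

theorem isClosed_EB {ι A : Type*} [TopologicalSpace ι] [DiscreteTopology ι] [TopologicalSpace A]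
    [DiscreteTopology A] (C : Code D3 A) (i0 : ι) : IsClosed (EB C i0) := sorry

/- ===== TASK DT-B5: file BAlg.lean ===== -/

theorem Low.mul {m n : ℤ} {x y : K} (hx : Low m x) (hy : Low n y) : Low (m + n) (x * y) := sorry

theorem exists_low (x : K) : ∃ n, Low n x := sorry

theorem exists_unit_form {l : K} (hl : l ≠ 0) :
    ∃ (k : ℤ) (u : K), l = (HahnSeries.single k (1 : ZMod 2) : K) * u ∧ Low 1 (u - 1) := sorry

theorem low_pow_sub_one {u : K} (hu : Low 1 (u - 1)) (m : ℕ) :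
    Low (2 ^ m) (u ^ (2 ^ m) - 1) := sorry

theorem alg_dichotomy (M : Matrix (Fin 2) (Fin 2) K) (hdet : M.det = 1)
    (hP : ∀ i j, Pol (M i j)) :
    M ^ 6 = 1 ∨ ((M - 1).det ≠ 0 ∧ ∃ (l : K) (a r : Fin 2 → K), l ≠ 0 ∧ Low 1 l⁻¹ ∧
      a ≠ 0 ∧ r ≠ 0 ∧ M.mulVec a = l • a ∧ M.mulVec r = l⁻¹ • r) := sorry

/- ===== TASK DT-B6: file BPing.lean (imports BEval, BAlg) ===== -/

section
variable {ι A : Type*} [TopologicalSpace ι] [DiscreteTopology ι]
    [TopologicalSpace A] [DiscreteTopology A] (C : Code D3 A) (i0 : ι)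

theorem Aff.comp {f g : ι × (ℕ → A) → ι × (ℕ → A)} (hf : Aff C i0 f) (hg : Aff C i0 g) :
    Aff C i0 (fun x => f (g x)) := sorry

theorem Aff.inv {g : (ι × (ℕ → A)) ≃ₜ (ι × (ℕ → A))} (hg : Aff C i0 g) :
    Aff C i0 g.symm := sorry

theorem Aff.of_fix {g : ι × (ℕ → A) → ι × (ℕ → A)} (hg : ∀ x ∈ EB C i0, g x = x) :
    Aff C i0 g := sorry

theorem aff_HN [DecidableEq ι] (N : Matrix (Fin 3) (Fin 3) (ZMod 2))
    (hN : N = N12 ∨ N = N21 ∨ N = NJ ∨ N = N13) : Aff C i0 (C.hfun i0 (Nmap N)) := sorry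

theorem no_pingpong_B (H : Subgroup ((ι × (ℕ → A)) ≃ₜ (ι × (ℕ → A))))
    (hH : ∀ g ∈ H, Aff C i0 g) : ¬ HasPingPong H := sorry

end

/- ===== TASK DT-B7: file BMeas.lean ===== -/

theorem no_measure_B {ι A : Type*} [Finite ι] [Finite A] [DecidableEq ι]
    [TopologicalSpace ι] [DiscreteTopology ι]
    [TopologicalSpace A] [DiscreteTopology A] [Nontrivial A] (C : Code D3 A) (i0 : ι)
    [MeasurableSpace (ι × (ℕ → A))] [BorelSpace (ι × (ℕ → A))]
    (μ : Measure (ι × (ℕ → A))) [IsProbabilityMeasure μ]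
    (hswap : ∀ f : (ι × (ℕ → A)) ≃ₜ (ι × (ℕ → A)), TailRule f id → (∀ x ∈ EB C i0, f x = x) →
      μ.map f = μ)
    (hN : ∀ N, (N = N12 ∨ N = N21 ∨ N = NJ ∨ N = N13) → μ.map (C.hfun i0 (Nmap N)) = μ) :
    False := sorry

/- ===== TASK DT-R1, R2: files Rat.lean, RatPhi.lean ===== -/

theorem Nmap_sq {N : Matrix (Fin 3) (Fin 3) (ZMod 2)} (hN : N * N = 0) (d : D3) :
    Nmap N (Nmap N d) = 0 := by
  simp [Nmap, hN]

theorem d3_two (d : D3) : d + d = 0 := by
  funext i
  simp only [Pi.add_apply, Pi.zero_apply]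
  generalize d i = x
  revert x
  decide

theorem Transducer.comp {A : Type*} {f g : (ℕ → A) → (ℕ → A)} {S T : Transducer A}
    (hf : S.Computes f) (hg : T.Computes g) : ∃ R : Transducer A, R.Computes (fun w => f (g w)) :=
  sorry

theorem rational_of_cover {A : Type*} {f : (ℕ → A) → (ℕ → A)} [Finite A]
    (hf : ∃ P : Set (List A), P.Finite ∧
      (∀ x : ℕ → A, ∃ u ∈ P, ∃ w : ℕ → A, x = app u w) ∧
      ∀ u ∈ P, ∃ v : List A, ∀ w : ℕ → A, f (app u w) = app v w) :
    ∃ T : Transducer A, T.Computes f := sorry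

theorem rational_hmap {D A : Type*} [Finite A] [AddCommGroup D] (C : Code D A) (N : D →+ D) :
    ∃ T : Transducer A, T.Computes (C.hmap N) := sorry

/- ===== assembly of part B ===== -/

theorem N12_sq : N12 * N12 = 0 := by decide
theorem N21_sq : N21 * N21 = 0 := by decide
theorem NJ_sq : NJ * NJ = 0 := by decide
theorem N13_sq : N13 * N13 = 0 := by decide

theorem gen_sq {N : Matrix (Fin 3) (Fin 3) (ZMod 2)}
    (hN : N = N12 ∨ N = N21 ∨ N = NJ ∨ N = N13) : N * N = 0 := by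
  rcases hN with rfl | rfl | rfl | rfl
  · exact N12_sq
  · exact N21_sq
  · exact NJ_sq
  · exact N13_sq

/-- The bad subgroup for any group containing the tail maps and the maps `HN`. -/
theorem bad_B {ι A : Type*} [Finite ι] [Finite A] [DecidableEq ι]
    [TopologicalSpace ι] [DiscreteTopology ι]
    [TopologicalSpace A] [DiscreteTopology A] [Nontrivial A] (C : Code D3 A) (i0 : ι)
    (G : Subgroup ((ι × (ℕ → A)) ≃ₜ (ι × (ℕ → A))))
    (hG : ∀ f : (ι × (ℕ → A)) ≃ₜ (ι × (ℕ → A)), TailRule f id → f ∈ G)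
    (hN : ∀ (N : Matrix (Fin 3) (Fin 3) (ZMod 2)) (h : N * N = 0),
      C.HN (Nmap N) i0 d3_two (Nmap_sq h) ∈ G) :
    ∃ H : Subgroup ((ι × (ℕ → A)) ≃ₜ (ι × (ℕ → A))), H ≤ G ∧ Bad H := by
  let H : Subgroup ((ι × (ℕ → A)) ≃ₜ (ι × (ℕ → A))) :=
    { carrier := {g | g ∈ G ∧ Aff C i0 g}
      mul_mem' := fun {f g} hf hg => ⟨G.mul_mem hf.1 hg.1,
        (Aff.comp C i0 hf.2 hg.2 : Aff C i0 fun x => f (g x))⟩
      one_mem' := ⟨G.one_mem, Aff.of_fix C i0 fun x _ => rfl⟩
      inv_mem' := fun {g} hg => ⟨G.inv_mem hg.1, Aff.inv C i0 hg.2⟩ }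
  refine ⟨H, fun g hg => hg.1, ?_, no_pingpong_B C i0 H fun g hg => hg.2⟩
  intro μ hμ hinv
  let mX : MeasurableSpace (ι × (ℕ → A)) := borel _
  have bX : BorelSpace (ι × (ℕ → A)) := ⟨rfl⟩
  have : IsProbabilityMeasure μ := hμ
  refine no_measure_B C i0 μ (fun f hf hfix => ?_) (fun N hN' => ?_)
  · exact hinv f ⟨hG f hf, Aff.of_fix C i0 hfix⟩
  · exact hinv (C.HN (Nmap N) i0 d3_two (Nmap_sq (gen_sq hN')))
      ⟨hN N (gen_sq hN'), aff_HN C i0 N hN'⟩

/-- The normalizer of the group of tail maps. -/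
def normG (ι A : Type*) [TopologicalSpace ι] [TopologicalSpace A] :
    Subgroup ((ι × (ℕ → A)) ≃ₜ (ι × (ℕ → A))) where
  carrier := {h | ∀ f : (ι × (ℕ → A)) ≃ₜ (ι × (ℕ → A)),
    TailRule f id ↔ TailRule (h * f * h⁻¹) id}
  mul_mem' := by
    intro h k hh hk f
    rw [hk f, hh (k * f * k⁻¹)]
    simp only [mul_inv_rev, mul_assoc]
  one_mem' := by intro f; simp
  inv_mem' := by
    intro h hh f
    rw [hh (h⁻¹ * f * h⁻¹⁻¹)]
    simp [mul_assoc]

theorem fails_aut (d k : ℕ) (hd : 2 ≤ d) (hk : 1 ≤ k) :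
    ¬ SatisfiesDTA (autHigmanThompson d k) := by
  obtain ⟨e, rfl⟩ : ∃ e, d = e + 2 := ⟨d - 2, by omega⟩
  obtain ⟨l, rfl⟩ : ∃ l, k = l + 1 := ⟨k - 1, by omega⟩
  have h01 : (0 : Fin (e + 2)) ≠ 1 := by simp
  have key : ∀ f : (Fin (l + 1) × (ℕ → Fin (e + 2))) ≃ₜ (Fin (l + 1) × (ℕ → Fin (e + 2))),
      f ∈ higmanThompson (e + 2) (l + 1) ↔ TailRule f id := by
    intro f
    constructor
    · rintro ⟨P, -, h1, h2⟩
      exact TailRule.of_cover ⟨P, h1, h2⟩
    · intro hf
      exact TailRule.cover f.continuous hf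
  suffices hb : ∃ H : Subgroup ((Fin (l + 1) × (ℕ → Fin (e + 2))) ≃ₜ
      (Fin (l + 1) × (ℕ → Fin (e + 2)))), H ≤ normG (Fin (l + 1)) (Fin (e + 2)) ∧ Bad H by
    obtain ⟨H, hHG, hH⟩ := hb
    refine hH.not_satisfiesDTA fun g hg => ?_
    intro f
    rw [key, key]
    exact hHG hg f
  refine bad_B (code3 (0 : Fin (e + 2)) 1 h01) (0 : Fin (l + 1))
    (normG (Fin (l + 1)) (Fin (e + 2))) ?_ ?_
  · intro h hh f
    have hinv : TailRule (h⁻¹ : (Fin (l + 1) × (ℕ → Fin (e + 2))) ≃ₜ _) id := TailRule.inv_id hh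
    constructor
    · intro hf
      have := TailRule.comp_id (TailRule.comp_id hh hf f.continuous) hinv (h⁻¹).continuous
      exact this
    · intro hf
      have := TailRule.comp_id (TailRule.comp_id hinv hf (h * f * h⁻¹).continuous) hh h.continuous
      have h3 : (fun x => h⁻¹ ((h * f * h⁻¹) (h x))) = f := by
        funext x
        simp
      rw [h3] at this
      exact this
  · intro N hN f
    set g := (code3 (0 : Fin (e + 2)) 1 h01).HN (Nmap N) (0 : Fin (l + 1)) d3_two (Nmap_sq hN)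
      with hg
    have hginv : g⁻¹ = g := rfl
    have hgg : ∀ x, g (g x) = x := fun x => g.left_inv x
    have hgt : TailRule g ((code3 (0 : Fin (e + 2)) 1 h01).phi (Nmap N)) :=
      Code.tailRule_hfun _ _ _
    have hconj : ∀ f : (Fin (l + 1) × (ℕ → Fin (e + 2))) ≃ₜ (Fin (l + 1) × (ℕ → Fin (e + 2))),
        TailRule f id → TailRule (g * f * g⁻¹) id := by
      intro f hf
      rw [hginv]
      exact Code.tailRule_conj _ (Nmap N) d3_two (Nmap_sq hN) g f g.continuous f.continuous hgt hf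
    constructor
    · exact hconj f
    · intro hf
      have := hconj _ hf
      have h3 : g * (g * f * g⁻¹) * g⁻¹ = f := by
        ext x : 1
        simp [hginv, hgg]
      rw [h3] at this
      exact this

/-- Maps of `Unit × A^ℕ` given by transducers. -/
def RatU {A : Type*} (f : Unit × (ℕ → A) → Unit × (ℕ → A)) : Prop :=
  ∃ T : Transducer A, T.Computes (fun w => (f ((), w)).2)

theorem RatU.comp {A : Type*} {f g : Unit × (ℕ → A) → Unit × (ℕ → A)} (hf : RatU f)
    (hg : RatU g) : RatU (fun x => f (g x)) := by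
  obtain ⟨S, hS⟩ := hf
  obtain ⟨T, hT⟩ := hg
  exact Transducer.comp hS hT

/-- The group of maps given, together with their inverses, by transducers. -/
def ratG (A : Type*) [TopologicalSpace A] :
    Subgroup ((Unit × (ℕ → A)) ≃ₜ (Unit × (ℕ → A))) where
  carrier := {f | RatU f ∧ RatU f.symm}
  mul_mem' := fun {f g} hf hg => ⟨(RatU.comp hf.1 hg.1 : RatU fun x => f (g x)),
    (RatU.comp hg.2 hf.2 : RatU fun x => g.symm (f.symm x))⟩
  one_mem' := by
    have : RatU (fun x : Unit × (ℕ → A) => x) := by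
      refine ⟨⟨Unit, inferInstance, (), fun _ _ => (), fun _ a => [a]⟩, fun w => ⟨fun n => ?_,
        fun m => ?_⟩⟩
      · have h : ∀ n, Transducer.written ⟨Unit, inferInstance, (), fun _ _ => (), fun _ a => [a]⟩
            w n = pre n w := by
          intro n
          induction n with
          | zero => simp [Transducer.written, pre]
          | succ n ih =>
            simp only [Transducer.written, ih, pre, List.ofFn_succ']
            simp [List.concat_eq_append]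
        exact ⟨sh n w, by rw [h, app_pre]⟩
      · have h : ∀ n, Transducer.written ⟨Unit, inferInstance, (), fun _ _ => (), fun _ a => [a]⟩
            w n = pre n w := by
          intro n
          induction n with
          | zero => simp [Transducer.written, pre]
          | succ n ih =>
            simp only [Transducer.written, ih, pre, List.ofFn_succ']
            simp [List.concat_eq_append]
        exact ⟨m, by rw [h]; simp⟩
    exact ⟨this, this⟩
  inv_mem' := fun {f} hf => ⟨hf.2, hf.1⟩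

/-- Transport along `A^ℕ = Unit × A^ℕ`. -/
def punitConj (A : Type*) [TopologicalSpace A] :
    ((Unit × (ℕ → A)) ≃ₜ (Unit × (ℕ → A))) →* ((ℕ → A) ≃ₜ (ℕ → A)) where
  toFun := fun f => ((Homeomorph.punitProd (ℕ → A)).symm.trans f).trans
    (Homeomorph.punitProd (ℕ → A))
  map_one' := by ext x; rfl
  map_mul' := by intro f g; ext x : 1; rfl

theorem tail_rat {A : Type*} [Finite A] [TopologicalSpace A] [DiscreteTopology A]
    {f : Unit × (ℕ → A) → Unit × (ℕ → A)} (fc : Continuous f) (hf : TailRule f id) : RatU f := by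
  obtain ⟨P, hP, h1, h2⟩ := TailRule.cover fc hf
  refine rational_of_cover ⟨Prod.snd '' P, hP.image _, ?_, ?_⟩
  · intro x
    obtain ⟨u, hu, w, hw⟩ := h1 ((), x)
    exact ⟨u.2, ⟨u, hu, rfl⟩, w, congrArg Prod.snd hw⟩
  · rintro _ ⟨u, hu, rfl⟩
    obtain ⟨v, hv⟩ := h2 u hu
    exact ⟨v.2, fun w => congrArg Prod.snd (hv w)⟩

theorem fails_rational (A : Type*) [Finite A] [Nontrivial A] [TopologicalSpace A]
    [DiscreteTopology A] : ¬ SatisfiesDTA (rationalHomeos A) := by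
  obtain ⟨a0, a1, h01⟩ := exists_pair_ne A
  suffices hb : ∃ H : Subgroup ((Unit × (ℕ → A)) ≃ₜ (Unit × (ℕ → A))),
      H ≤ ratG A ∧ Bad H by
    obtain ⟨H, hHG, hH⟩ := hb
    have := Bad.transfer (punitConj A) (fun w => ((), w)) (by fun_prop) Prod.snd (by fun_prop)
      (fun g x => rfl) (fun g y => rfl) hH
    refine this.not_satisfiesDTA ?_
    rintro _ ⟨g, hg, rfl⟩
    exact (hHG hg).1
  refine bad_B (code3 a0 a1 h01) () (ratG A)
    (fun f hf => ⟨tail_rat f.continuous hf, tail_rat f.symm.continuous (TailRule.inv_id hf)⟩) ?_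
  · intro N hN
    obtain ⟨T, hT⟩ := rational_hmap (code3 a0 a1 h01) (Nmap N)
    have : RatU ((code3 a0 a1 h01).HN (Nmap N) () d3_two (Nmap_sq hN)) := by
      refine ⟨T, ?_⟩
      have h3 : (fun w => ((code3 a0 a1 h01).HN (Nmap N) () d3_two (Nmap_sq hN) ((), w)).2)
          = (code3 a0 a1 h01).hmap (Nmap N) := by
        funext w
        show ((code3 a0 a1 h01).hfun () (Nmap N) ((), w)).2 = _
        simp [Code.hfun]
      rw [h3]
      exact hT
    exact ⟨this, this⟩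

end Pool.Agent.W331.DT
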