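import Mathlib

/-!
Official definitions for the dynamical Tits alternative (problem MP_e5892f_al).
-/

set_option autoImplicit false

namespace Pool.Agent.W331.DT

open MeasureTheory Topology

/-- A subgroup `H` of the homeomorphism group of `X` admits a ping-pong pair. -/
def HasPingPong {X : Type*} [TopologicalSpace X] (H : Subgroup (X ≃ₜ X)) : Prop :=
  ∃ g ∈ H, ∃ h ∈ H, ∃ U₁ U₂ V₁ V₂ : Set X,
    (IsOpen U₁ ∧ IsOpen U₂ ∧ IsOpen V₁ ∧ IsOpen V₂) ∧
    (Disjoint U₁ U₂ ∧ Disjoint U₁ V₁ ∧ Disjoint U₁ V₂ ∧
      Disjoint U₂ V₁ ∧ Disjoint U₂ V₂ ∧ Disjoint V₁ V₂) ∧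
    g '' U₁ᶜ ⊆ V₁ ∧ h '' U₂ᶜ ⊆ V₂

/-- A subgroup `H` of the homeomorphism group of `X` preserves a regular Borel probability
measure on `X`. -/
def PreservesMeasure {X : Type*} [TopologicalSpace X] (H : Subgroup (X ≃ₜ X)) : Prop :=
  ∃ μ : @Measure X (borel X),
    @IsProbabilityMeasure X (borel X) μ ∧ @Measure.Regular X (borel X) _ μ ∧
      ∀ h ∈ H, @Measure.map X X (borel X) (borel X) (h : X → X) μ = μ

/-- The action on `X` of the group of homeomorphisms `G` satisfies the dynamical Tits
alternative. -/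
def SatisfiesDTA {X : Type*} [TopologicalSpace X] (G : Set (X ≃ₜ X)) : Prop :=
  ∀ H : Subgroup (X ≃ₜ X), (H : Set (X ≃ₜ X)) ⊆ G → PreservesMeasure H ∨ HasPingPong H

/-- The infinite word `a w 0 w 1 ...`. -/
def cons {A : Type*} (a : A) (w : ℕ → A) : ℕ → A
  | 0 => a
  | n + 1 => w n

/-- Concatenation of a finite word and an infinite word. -/
def app {A : Type*} : List A → (ℕ → A) → (ℕ → A)
  | [], w => w
  | a :: l, w => cons a (app l w)

/-- An asynchronous finite-state transducer over the alphabet `A`: each transition reads one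
letter and writes a finite, possibly empty, word. -/
structure Transducer (A : Type*) where
  State : Type
  fin : Finite State
  init : State
  next : State → A → State
  out : State → A → List A

namespace Transducer

variable {A : Type*} (T : Transducer A)

/-- The state reached after reading the first `n` letters of `w`. -/
def run (w : ℕ → A) : ℕ → T.State
  | 0 => T.init
  | n + 1 => T.next (run w n) (w n)

/-- The word written while reading the first `n` letters of `w`. -/
def written (w : ℕ → A) : ℕ → List A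
  | 0 => []
  | n + 1 => written w n ++ T.out (T.run w n) (w n)

/-- The transducer `T` computes the map `f` on infinite words: on every input `w` the written
words are initial segments of `f w` whose lengths tend to infinity. -/
def Computes (f : (ℕ → A) → (ℕ → A)) : Prop :=
  ∀ w : ℕ → A, (∀ n : ℕ, ∃ z : ℕ → A, f w = app (T.written w n) z) ∧
    ∀ m : ℕ, ∃ n : ℕ, m ≤ (T.written w n).length

end Transducer

/-- The rational homeomorphisms of `A^ℕ`: those computed by a finite-state asynchronous
transducer (the group `R_A` of Grigorchuk, Nekrashevych and Sushchansky). -/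
def rationalHomeos (A : Type*) [TopologicalSpace A] : Set ((ℕ → A) ≃ₜ (ℕ → A)) :=
  {f | ∃ T : Transducer A, T.Computes f}

/-- The Brin-Thompson group `nV` acting on `C^n`, `C = {0,1}^ℕ`: homeomorphisms given, on
finitely many dyadic boxes covering `C^n`, by prefix replacement in each coordinate. -/
def brinThompson (n : ℕ) : Set ((Fin n → ℕ → Bool) ≃ₜ (Fin n → ℕ → Bool)) :=
  {f | ∃ P : Set (Fin n → List Bool), P.Finite ∧
      (∀ x : Fin n → ℕ → Bool, ∃ u ∈ P, ∃ w : Fin n → ℕ → Bool, x = fun i => app (u i) (w i)) ∧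
      ∀ u ∈ P, ∃ v : Fin n → List Bool, ∀ w : Fin n → ℕ → Bool,
        f (fun i => app (u i) (w i)) = fun i => app (v i) (w i)}

/-- The Higman-Thompson group `V_{d,k}` acting on the disjoint union of `k` copies of
`{0,...,d-1}^ℕ`: homeomorphisms given, on finitely many cones covering the space, by prefix
replacement. -/
def higmanThompson (d k : ℕ) : Set ((Fin k × (ℕ → Fin d)) ≃ₜ (Fin k × (ℕ → Fin d))) :=
  {f | ∃ P : Set (Fin k × List (Fin d)), P.Finite ∧
      (∀ x : Fin k × (ℕ → Fin d), ∃ u ∈ P, ∃ w : ℕ → Fin d, x = (u.1, app u.2 w)) ∧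
      ∀ u ∈ P, ∃ v : Fin k × List (Fin d), ∀ w : ℕ → Fin d,
        f (u.1, app u.2 w) = (v.1, app v.2 w)}

/-- `Aut(V_{d,k})` acting on the Cantor space: the homeomorphisms by which conjugation maps
`V_{d,k}` onto itself (the normalizer of `V_{d,k}` in the homeomorphism group). -/
def autHigmanThompson (d k : ℕ) : Set ((Fin k × (ℕ → Fin d)) ≃ₜ (Fin k × (ℕ → Fin d))) :=
  {h | ∀ f : (Fin k × (ℕ → Fin d)) ≃ₜ (Fin k × (ℕ → Fin d)),
      f ∈ higmanThompson d k ↔ h * f * h⁻¹ ∈ higmanThompson d k}

end Pool.Agent.W331.DT
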